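import Pool.Agent.U151.IP.Disc

/-!
Connection of the arms of a vertex to the two boundary arcs, at a general place of the rectangle.
-/

set_option autoImplicit false

namespace Pool.Agent.U151.FS

open H973 hiding SR
open H974 H12S H934E H934F Finset

/-- Dual top-bottom crossing. -/
theorem dual_tb {a b c d : ℤ} (hab : a ≤ b) (hcd : c ≤ d) {F : Finset Edg}
    (hF : ¬ LRc a b c d F) :
    ∃ x x', (a ≤ x ∧ x < b) ∧ (a ≤ x' ∧ x' < b) ∧
      DReach (↑(LRE a b c d \ F) : Set Edg) (x, c - 1) (x', d) := by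
  set W : Vtx → Prop := fun v => ∃ y, (c ≤ y ∧ y ≤ d) ∧
    Reach (↑F ∩ ↑(LRE a b c d)) (a, y) v with hW
  have hL : ∀ y, c ≤ y → y ≤ d → W (a, y) :=
    fun y h3 h4 => ⟨y, ⟨h3, h4⟩, Reach.refl _ _⟩
  have hR : ∀ y, c ≤ y → y ≤ d → ¬ W (b, y) := by
    rintro y h3 h4 ⟨y0, h5, h6⟩
    exact hF ⟨y0, y, h5, ⟨h3, h4⟩, h6⟩
  obtain ⟨x, x', hx, hx', hr⟩ := dual_crossing hab hcd W hL hR
  refine ⟨x, x', hx, hx', ?_⟩
  refine DReach.mono ?_ hr
  rintro e ⟨he1, he2⟩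
  rw [Finset.coe_sdiff]
  refine ⟨he2, ?_⟩
  intro heF
  apply he1
  constructor
  · rintro ⟨y, h3, h4⟩
    exact ⟨y, h3, h4.trans (Adj.reach ⟨e, ⟨heF, he2⟩, Or.inl ⟨rfl, rfl⟩⟩)⟩
  · rintro ⟨y, h3, h4⟩
    exact ⟨y, h3, h4.trans (Adj.reach ⟨e, ⟨heF, he2⟩, Or.inr ⟨rfl, rfl⟩⟩)⟩

/-- Dual left-right crossing. -/
theorem dual_lr {a b c d : ℤ} (hab : a ≤ b) (hcd : c ≤ d) {F : Finset Edg}
    (hF : ¬ TBc a b c d F) :
    ∃ y y', (c ≤ y ∧ y < d) ∧ (c ≤ y' ∧ y' < d) ∧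
      DReach (↑(TBE a b c d \ F) : Set Edg) (a - 1, y) (b, y') := by
  have h1 : ¬ LRc c d a b (tps.mp F) := fun h => hF (LRc_tps_iff.mp h)
  obtain ⟨y, y', hy, hy', hr⟩ := dual_tb hcd hab h1
  refine ⟨y, y', hy, hy', ?_⟩
  have h2 := DReach_tps hr
  rw [tps_ψ, tps_ψ] at h2
  refine h2.mono ?_
  rintro _ ⟨⟨x0, y0, b0⟩, he, rfl⟩
  rw [Finset.mem_coe, Finset.mem_sdiff] at he ⊢
  rw [tps_φ]
  constructor
  · have := he.1
    cases b0
    · rw [mem_LRE_false] at this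
      rw [show (!false) = true from rfl, mem_TBE_true]
      omega
    · rw [mem_LRE_true] at this
      rw [show (!true) = false from rfl, mem_TBE_false]
      omega
  · intro h3
    apply he.2
    rw [LSym.mem_mp, tps_φs]
    exact h3

/-- Crossings of long rectangles. -/
theorem rswK (K : ℕ) {m w h : ℤ} (hm : 0 < m) (hw : 0 < w) (hw' : w ≤ (8 + 6 * (K : ℤ)) * m)
    (hh2 : 2 * m ≤ h) : (1/2:ℝ)^(48 * (K + 1)) ≤ hh (1/2) w h :=
  (hh_long K hm).trans (hh_mono (by norm_num) (by norm_num) hw hw' hh2)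

/-- Open connection from the block on the left to the column `xl`. -/
def OL (X Y h xl : ℤ) (F : Finset Edg) : Prop :=
  TBc (X - 5 * h) (X - 3 * h - 1) (Y - 3 * h) (Y + 3 * h) F ∧
    LRc xl (X - 3 * h - 1) (Y - 3 * h) (Y + 3 * h) F

/-- Dual connection from the block on the right to the column `xr`. -/
def DR (X Y h xr : ℤ) (F : Finset Edg) : Prop :=
  ¬ LRc (X + 3 * h + 1) (X + 5 * h) (Y - 3 * h) (Y + 3 * h) F ∧
    ¬ TBc (X + 3 * h + 1) xr (Y - 3 * h) (Y + 3 * h) F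

/-- The vertices near `(X, Y)`. -/
noncomputable def box (X Y h : ℤ) : Finset Vtx :=
  Finset.Icc (X - h) (X + h) ×ˢ Finset.Icc (Y - h) (Y + h)

theorem mem_box {X Y h : ℤ} {v : Vtx} : v ∈ box X Y h ↔
    (X - h ≤ v.1 ∧ v.1 ≤ X + h) ∧ (Y - h ≤ v.2 ∧ v.2 ≤ Y + h) := by
  unfold box
  rw [Finset.mem_product, Finset.mem_Icc, Finset.mem_Icc]

theorem box_nd {X Y h : ℤ} {v w : Vtx} (hv : v ∈ box X Y h) (hw : w ∈ box X Y h) :
    nd v w ≤ 2 * h := by
  rw [mem_box] at hv hw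
  unfold nd
  rw [max_le_iff, abs_le, abs_le]
  omega

/-- The regions on both sides. -/
noncomputable def UL (X Y h xl : ℤ) : Finset Edg := RE xl (X - 3 * h - 1) (Y - 3 * h) (Y + 3 * h)
noncomputable def UR (X Y h xr : ℤ) : Finset Edg := RE (X + 3 * h + 1) xr (Y - 3 * h) (Y + 3 * h)

theorem TBE_mono {a b c d a' b' c' d' : ℤ} (h1 : a' ≤ a) (h2 : b ≤ b') (h3 : c' ≤ c) (h4 : d ≤ d') :
    TBE a b c d ⊆ RE a' b' c' d' := TBE_subset_RE.trans (RE_subset h1 h2 h3 h4)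

theorem LRE_mono {a b c d a' b' c' d' : ℤ} (h1 : a' ≤ a) (h2 : b ≤ b') (h3 : c' ≤ c) (h4 : d ≤ d') :
    LRE a b c d ⊆ RE a' b' c' d' := LRE_subset_RE.trans (RE_subset h1 h2 h3 h4)

theorem OL_local {X Y h xl : ℤ} (hl : xl ≤ X - 5 * h) (F : Finset Edg) :
    OL X Y h xl F ↔ OL X Y h xl (F ∩ UL X Y h xl) := by
  unfold OL UL
  rw [← TBc_local (TBE_mono (by omega) le_rfl le_rfl le_rfl),
    ← LRc_local (LRE_mono le_rfl le_rfl le_rfl le_rfl)]

theorem DR_local {X Y h xr : ℤ} (hr : X + 5 * h ≤ xr) (F : Finset Edg) :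
    DR X Y h xr F ↔ DR X Y h xr (F ∩ UR X Y h xr) := by
  unfold DR UR
  rw [← TBc_local (TBE_mono le_rfl le_rfl le_rfl le_rfl),
    ← LRc_local (LRE_mono le_rfl (by omega) le_rfl le_rfl)]

theorem OL_mono {X Y h xl : ℤ} {F G : Finset Edg} (hFG : F ⊆ G) (hF : OL X Y h xl F) :
    OL X Y h xl G := ⟨hF.1.mono hFG, hF.2.mono hFG⟩

theorem DR_anti {X Y h xr : ℤ} {F G : Finset Edg} (hFG : F ⊆ G) (hG : DR X Y h xr G) :
    DR X Y h xr F := ⟨fun h => hG.1 (h.mono hFG), fun h => hG.2 (h.mono hFG)⟩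

theorem pr_OL {X Y h xl : ℤ} {K : ℕ} (hh : 2 ≤ h) (hl : xl ≤ X - 5 * h)
    (hK : X - 3 * h - 1 - xl ≤ (8 + 6 * (K : ℤ)) * h) {S : Finset Edg} (hS : UL X Y h xl ⊆ S) :
    dlt * (1/2:ℝ)^(48 * (K + 1)) ≤ Q S (OL X Y h xl) := by
  have h1 : dlt ≤ Q S (TBc (X - 5 * h) (X - 3 * h - 1) (Y - 3 * h) (Y + 3 * h)) := by
    have e : Q S (TBc (X - 5 * h) (X - 3 * h - 1) (Y - 3 * h) (Y + 3 * h)) =
        H974.hh (1/2) (Y + 3 * h - (Y - 3 * h)) (X - 3 * h - 1 - (X - 5 * h)) :=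
      pr_TBc (1/2) ((TBE_mono (by omega) le_rfl le_rfl le_rfl).trans hS)
    rw [e]
    exact rswL (m := h - 1) (by omega) (by omega) (by omega) (by omega)
  have h2 : (1/2:ℝ)^(48 * (K + 1)) ≤
      Q S (LRc xl (X - 3 * h - 1) (Y - 3 * h) (Y + 3 * h)) := by
    have e : Q S (LRc xl (X - 3 * h - 1) (Y - 3 * h) (Y + 3 * h)) =
        H974.hh (1/2) (X - 3 * h - 1 - xl) (Y + 3 * h - (Y - 3 * h)) :=
      pr_LRc (1/2) ((LRE_mono le_rfl le_rfl le_rfl le_rfl).trans hS)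
    rw [e]
    exact rswK K (m := h) (by omega) (by omega) hK (by omega)
  calc dlt * (1/2:ℝ)^(48 * (K + 1)) ≤ _ := mul_le_mul h1 h2 (by positivity) (Q_nonneg _ _)
    _ ≤ _ := Pr_harris okhalf (TBc_incr S _ _ _ _) (LRc_incr S _ _ _ _)

theorem pr_DR {X Y h xr : ℤ} {K : ℕ} (hh : 2 ≤ h) (hr : X + 5 * h ≤ xr)
    (hK : xr - (X + 3 * h) ≤ (8 + 6 * (K : ℤ)) * h) {S : Finset Edg} (hS : UR X Y h xr ⊆ S) :
    dlt * (1/2:ℝ)^(48 * (K + 1)) ≤ Q S (DR X Y h xr) := by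
  have e3 : (1:ℝ) - 1/2 = 1/2 := by norm_num
  have h1 : dlt ≤ Q S (fun F => ¬ LRc (X + 3 * h + 1) (X + 5 * h) (Y - 3 * h) (Y + 3 * h) F) := by
    have e : Q S (LRc (X + 3 * h + 1) (X + 5 * h) (Y - 3 * h) (Y + 3 * h)) =
        H974.hh (1/2) (X + 5 * h - (X + 3 * h + 1)) (Y + 3 * h - (Y - 3 * h)) :=
      pr_LRc (1/2) ((LRE_mono le_rfl (by omega) le_rfl le_rfl).trans hS)
    have e2 := hh_dual (q := 1/2) (w := X + 5 * h - (X + 3 * h + 1)) (h := Y + 3 * h - (Y - 3 * h))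
      (by omega) (by omega)
    rw [e3] at e2
    have e4 := rswL (m := h - 1) (w := Y + 3 * h - (Y - 3 * h) + 1)
      (h := X + 5 * h - (X + 3 * h + 1) - 1) (by omega) (by omega) (by omega) (by omega)
    have e6 : Q S (fun F => ¬ LRc (X + 3 * h + 1) (X + 5 * h) (Y - 3 * h) (Y + 3 * h) F) =
        1 - Q S (LRc (X + 3 * h + 1) (X + 5 * h) (Y - 3 * h) (Y + 3 * h)) := Pr_not _ _
    rw [e6, e, e2]
    linarith
  have h2 : (1/2:ℝ)^(48 * (K + 1)) ≤
      Q S (fun F => ¬ TBc (X + 3 * h + 1) xr (Y - 3 * h) (Y + 3 * h) F) := by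
    have e : Q S (TBc (X + 3 * h + 1) xr (Y - 3 * h) (Y + 3 * h)) =
        H974.hh (1/2) (Y + 3 * h - (Y - 3 * h)) (xr - (X + 3 * h + 1)) :=
      pr_TBc (1/2) ((TBE_mono le_rfl le_rfl le_rfl le_rfl).trans hS)
    have e2 := hh_dual (q := 1/2) (w := Y + 3 * h - (Y - 3 * h)) (h := xr - (X + 3 * h + 1))
      (by omega) (by omega)
    rw [e3] at e2
    have e4 := rswK K (m := h) (w := xr - (X + 3 * h + 1) + 1)
      (h := Y + 3 * h - (Y - 3 * h) - 1) (by omega) (by omega) (by omega) (by omega)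
    have e6 : Q S (fun F => ¬ TBc (X + 3 * h + 1) xr (Y - 3 * h) (Y + 3 * h) F) =
        1 - Q S (TBc (X + 3 * h + 1) xr (Y - 3 * h) (Y + 3 * h)) := Pr_not _ _
    rw [e6, e, e2]
    linarith
  calc dlt * (1/2:ℝ)^(48 * (K + 1)) ≤ _ := mul_le_mul h1 h2 (by positivity) (Q_nonneg _ _)
    _ ≤ _ := t1_decr (fun F G hFG hG hF hn => hF (fun h => hn (h.mono hFG)))
        (fun F G hFG hG hF hn => hF (fun h => hn (h.mono hFG)))

/-- Gluing of the arms to the two connections. -/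
theorem glue {X Y h xl xr : ℤ} {K : ℕ} (hh : 2 ≤ h) (hl : xl ≤ X - 7 * h) (hr : X + 7 * h ≤ xr)
    (hKl : X - 3 * h - 1 - xl ≤ (8 + 6 * (K : ℤ)) * h)
    (hKr : xr - (X + 3 * h) ≤ (8 + 6 * (K : ℤ)) * h) {S : Finset Edg}
    (hSl : UL X Y h xl ⊆ S) (hSr : UR X Y h xr ⊆ S) {s : Bool × Bool} {v : Vtx}
    (hv : v ∈ box X Y h) :
    (dlt * (1/2:ℝ)^(48 * (K + 1))) ^ 2 * Q S (E2 s h v) ≤
      Q S (fun F => E2 s h v F ∧ OL X Y h xl F ∧ DR X Y h xr F) := by
  rw [mem_box] at hv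
  obtain ⟨⟨v1, v2⟩, v3, v4⟩ := hv
  have pL := pr_OL (Y := Y) hh (by omega) hKl hSl
  have pR := pr_DR (Y := Y) hh (by omega) hKr hSr
  set q : ℝ := dlt * (1/2:ℝ)^(48 * (K + 1)) with hq
  have hq0 : 0 ≤ q := mul_nonneg dlt_pos.le (pow_nonneg (by norm_num) _)
  have dL : ∀ e ∈ UL X Y h xl,
      e ∉ RE (v.1 - 2 * h) (v.1 + 6 * h) (v.2 - 2 * h) (v.2 + 2 * h) := by
    unfold UL
    rintro ⟨x, y, _ | _⟩ h1 h2
    · simp only [mem_RE_false] at h1 h2; omega
    · simp only [mem_RE_true] at h1 h2; omega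
  have dR : ∀ e ∈ UR X Y h xr,
      e ∉ RE (v.1 - 6 * h) (v.1 + 2 * h) (v.2 - 2 * h) (v.2 + 2 * h) := by
    unfold UR
    rintro ⟨x, y, _ | _⟩ h1 h2
    · simp only [mem_RE_false] at h1 h2; omega
    · simp only [mem_RE_true] at h1 h2; omega
  have dLR : ∀ e ∈ UR X Y h xr, e ∉ UL X Y h xl := by
    unfold UR UL
    rintro ⟨x, y, _ | _⟩ h1 h2
    · simp only [mem_RE_false] at h1 h2; omega
    · simp only [mem_RE_true] at h1 h2; omega
  -- first gluing
  have g1 : Q S (E2 s h v) * Q S (OL X Y h xl) ≤ Q S (fun F => E2 s h v F ∧ OL X Y h xl F) := by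
    apply t1a S (UL X Y h xl) (E2 s h v) (OL X Y h xl) hSl
    · rintro F G _ hFG hGF ⟨⟨y, hy, hr⟩, ⟨g, hg, hd⟩⟩
      refine ⟨⟨y, hy, hr.mono (Set.inter_subset_inter_left _ (by exact_mod_cast hFG))⟩,
        ⟨g, hg, hd.mono ?_⟩⟩
      intro e he
      rw [Finset.mem_coe, Finset.mem_sdiff] at he ⊢
      refine ⟨he.1, fun heG => ?_⟩
      rcases Finset.mem_union.mp (hGF heG) with h1 | h1
      · exact he.2 h1
      · exact dL e h1 he.1
    · intro F G hFG hF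
      exact OL_mono hFG hF
    · intro F
      exact OL_local (by omega) F
  -- second gluing
  have g2 : Q S (fun F => E2 s h v F ∧ OL X Y h xl F) * Q S (DR X Y h xr) ≤
      Q S (fun F => (E2 s h v F ∧ OL X Y h xl F) ∧ DR X Y h xr F) := by
    apply t1b S (UR X Y h xr) (fun F => E2 s h v F ∧ OL X Y h xl F) (DR X Y h xr) hSr
    · rintro F G _ hGF hFG ⟨⟨⟨y, hy, hr⟩, ⟨g, hg, hd⟩⟩, hO⟩
      refine ⟨⟨⟨y, hy, hr.mono ?_⟩, ⟨g, hg, hd.mono ?_⟩⟩, ?_⟩
      · rintro e ⟨he1, he2⟩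
        refine ⟨?_, he2⟩
        rcases Finset.mem_union.mp (hFG he1) with h1 | h1
        · exact h1
        · exact absurd he2 (dR e h1)
      · intro e he
        rw [Finset.mem_coe, Finset.mem_sdiff] at he ⊢
        exact ⟨he.1, fun heG => he.2 (hGF heG)⟩
      · have e1 : F ∩ UL X Y h xl ⊆ G ∩ UL X Y h xl := by
          intro e he
          rw [Finset.mem_inter] at he ⊢
          refine ⟨?_, he.2⟩
          rcases Finset.mem_union.mp (hFG he.1) with h1 | h1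
          · exact h1
          · exact absurd he.2 (dLR e h1)
        rw [OL_local (by omega)] at hO ⊢
        exact OL_mono e1 hO
    · intro F G hFG hG
      exact DR_anti hFG hG
    · intro F
      exact DR_local (by omega) F
  have q0 : 0 ≤ Q S (E2 s h v) := Q_nonneg _ _
  have q1 : 0 ≤ Q S (fun F => E2 s h v F ∧ OL X Y h xl F) := Q_nonneg _ _
  calc q ^ 2 * Q S (E2 s h v) = (Q S (E2 s h v) * q) * q := by ring
    _ ≤ (Q S (E2 s h v) * Q S (OL X Y h xl)) * q :=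
        mul_le_mul_of_nonneg_right (mul_le_mul_of_nonneg_left pL q0) hq0
    _ ≤ Q S (fun F => E2 s h v F ∧ OL X Y h xl F) * q := mul_le_mul_of_nonneg_right g1 hq0
    _ ≤ Q S (fun F => E2 s h v F ∧ OL X Y h xl F) * Q S (DR X Y h xr) :=
        mul_le_mul_of_nonneg_left pR q1
    _ ≤ Q S (fun F => (E2 s h v F ∧ OL X Y h xl F) ∧ DR X Y h xr F) := g2
    _ ≤ _ := Q_mono (fun F _ hF => ⟨hF.1.1, hF.1.2, hF.2⟩)

/-- The wired arc joins `(0,0)` to the left column. -/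
theorem wired_left (R : Rect) {δ : ℝ} (h0 : R.x0 δ ≤ 0) {y : ℤ} (hy0 : 0 ≤ y)
    (hy : y ≤ R.y1 δ) : Reach (R.wired δ) (0, 0) (R.x0 δ, y) := by
  have h1 : ∀ n : ℕ, R.x0 δ ≤ -(n : ℤ) → Reach (R.wired δ) (0, 0) (-(n : ℤ), 0) := by
    intro n
    induction n with
    | zero => intro _; exact Reach.refl _ _
    | succ n ih =>
      intro hn
      push_cast at hn ⊢
      refine (ih (by omega)).trans (Adj.reach ⟨(-(n : ℤ) - 1, 0, true), ?_, Or.inr ⟨?_, ?_⟩⟩)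
      · unfold Rect.wired
        rw [Set.mem_ofPred_eq]
        right; right
        refine ⟨rfl, rfl, ?_, ?_⟩ <;> simp only <;> omega
      · rw [src_mk]
        apply Prod.ext
        · simp only; omega
        · rfl
      · rw [tgt_true]
        apply Prod.ext
        · simp only; omega
        · rfl
  have h2 : ∀ n : ℕ, (n : ℤ) ≤ R.y1 δ → Reach (R.wired δ) (R.x0 δ, 0) (R.x0 δ, (n : ℤ)) := by
    intro n
    induction n with
    | zero => intro _; exact Reach.refl _ _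
    | succ n ih =>
      intro hn
      push_cast at hn ⊢
      refine (ih (by omega)).trans (Adj.reach ⟨(R.x0 δ, (n : ℤ), false), ?_, Or.inl ⟨?_, ?_⟩⟩)
      · unfold Rect.wired
        rw [Set.mem_ofPred_eq]
        right; left
        refine ⟨rfl, rfl, ?_, ?_⟩ <;> simp only <;> omega
      · rw [src_mk]
      · rw [tgt_false]
  have h3 := h1 (-(R.x0 δ)).toNat (by omega)
  have h4 := h2 y.toNat (by omega)
  rw [show -(((-(R.x0 δ)).toNat : ℕ) : ℤ) = R.x0 δ by omega] at h3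
  rw [show ((y.toNat : ℕ) : ℤ) = y by omega] at h4
  exact h3.trans h4

/-- The arms and the connections put the corner on the path. -/
theorem t4g (R : Rect) {δ : ℝ} {X Y h : ℤ} (hh : 2 ≤ h) (hl : R.x0 δ < X - 7 * h)
    (hl0 : R.x0 δ ≤ 0) (hr : X + 7 * h < R.x1 δ) (hb : 0 < Y - 3 * h) (ht : Y + 3 * h < R.y1 δ)
    {F : Finset Edg} (hO : OL X Y h (R.x0 δ) F) (hD : DR X Y h (R.x1 δ) F)
    {s : Bool × Bool} {v : Vtx} (hv : v ∈ box X Y h) (hE : E2 s h v F) :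
    v ∈ R.clu δ F ∧ cface v s ∈ R.dclu δ F := by
  obtain ⟨hAL, hAR⟩ := hE
  rw [mem_box] at hv
  obtain ⟨⟨v1, v2⟩, v3, v4⟩ := hv
  constructor
  · -- open part
    obtain ⟨y, hy, hyr⟩ := hAL
    obtain ⟨⟨x, x', hx, hx', hxr⟩, ⟨y0, y0', hy0, hy0', hyr0⟩⟩ := hO
    have hxr' : Reach (↑F ∩ ↑(RE (X - 5 * h) (X - 3 * h - 1) (Y - 3 * h) (Y + 3 * h)))
        (x, Y - 3 * h) (x', Y + 3 * h) :=
      hxr.mono (Set.inter_subset_inter_right (↑F) (by exact_mod_cast TBE_subset_RE))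
    have m1 := cross_meet (F := (↑F : Set Edg)) (A := v.1 - 6 * h) (B := v.1 + 2 * h)
      (C := Y - 3 * h) (D := Y + 3 * h) (a := X - 5 * h) (b := X - 3 * h - 1)
      (c := v.2 - 2 * h) (d := v.2 + 2 * h)
      (by omega) (by omega) (by omega) (by omega) (by omega) (by omega) hyr.symm
      (by omega) (by omega) hxr' (by simp only; omega) (by simp only; omega)
    have hyr0' : Reach (↑F ∩ ↑(RE (R.x0 δ) (X - 3 * h - 1) (Y - 3 * h) (Y + 3 * h)))
        (R.x0 δ, y0) (X - 3 * h - 1, y0') :=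
      hyr0.mono (Set.inter_subset_inter_right (↑F) (by exact_mod_cast LRE_subset_RE))
    have m2 := cross_meet (F := (↑F : Set Edg)) (A := R.x0 δ) (B := X - 3 * h - 1)
      (C := Y - 3 * h) (D := Y + 3 * h) (a := X - 5 * h) (b := X - 3 * h - 1)
      (c := Y - 3 * h) (d := Y + 3 * h)
      (by omega) (by omega) (by omega) (by omega) (by omega) (by omega) hyr0'
      (by simp only; omega) (by simp only; omega) hxr' (by simp only; omega)
      (by simp only; omega)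
    have m3 : Reach (↑F ∪ R.wired δ) (0, 0) (R.x0 δ, y0) :=
      (wired_left R hl0 (y := y0) (by omega) (by omega)).mono Set.subset_union_right
    have m4 : Reach (↑F ∪ R.wired δ) (R.x0 δ, y0) (x, Y - 3 * h) :=
      m2.mono (Set.inter_subset_left.trans Set.subset_union_left)
    have m5 : Reach (↑F ∪ R.wired δ) (x, Y - 3 * h) y :=
      m1.symm.mono (Set.inter_subset_left.trans Set.subset_union_left)
    have m6 : Reach (↑F ∪ R.wired δ) y v :=
      hyr.symm.mono (Set.inter_subset_left.trans Set.subset_union_left)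
    exact ((m3.trans m4).trans m5).trans m6
  · -- dual part
    obtain ⟨g, hg, hgr⟩ := hAR
    obtain ⟨x, x', hx, hx', hxr⟩ := dual_tb (by omega) (by omega) hD.1
    obtain ⟨y0, y0', hy0, hy0', hyr0⟩ := dual_lr (by omega) (by omega) hD.2
    set G : Set Edg := ↑(R.edges δ) \ (↑F ∪ R.wired δ) with hG
    have s1 : Reach (dl '' G ∩ ↑(RE (v.1 - 2 * h - 1) (v.1 + 6 * h) (v.2 - 2 * h - 1)
        (v.2 + 2 * h))) (cface v s) g := by
      refine (reach_dl.mpr hgr).mono ?_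
      rintro _ ⟨e, he, rfl⟩
      rw [Finset.mem_coe, Finset.mem_sdiff] at he
      have k1 := t4_free R (δ := δ) (by omega) (by omega) (by omega) (by omega)
        (by omega) he.1
      refine ⟨⟨e, ?_, rfl⟩, Finset.mem_coe.mpr (t4_dl_RE he.1)⟩
      rw [hG]
      refine ⟨Finset.mem_coe.mpr k1.1, ?_⟩
      rintro (hf | hf)
      · exact he.2 (Finset.mem_coe.mp hf)
      · exact k1.2 hf
    have s2 : Reach (dl '' G ∩ ↑(RE (X + 3 * h + 1) (X + 5 * h - 1) (Y - 3 * h - 1) (Y + 3 * h)))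
        (x, Y - 3 * h - 1) (x', Y + 3 * h) := by
      refine (reach_dl.mpr hxr).mono ?_
      rintro _ ⟨e, he, rfl⟩
      rw [Finset.mem_coe, Finset.mem_sdiff] at he
      have k1 := t4_free R (δ := δ) (by omega) (by omega) (by omega) (by omega)
        (by omega) (LRE_subset_RE he.1)
      refine ⟨⟨e, ?_, rfl⟩, Finset.mem_coe.mpr (t4_dl_LRE he.1)⟩
      rw [hG]
      refine ⟨Finset.mem_coe.mpr k1.1, ?_⟩
      rintro (hf | hf)
      · exact he.2 (Finset.mem_coe.mp hf)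
      · exact k1.2 hf
    have s3 : Reach (dl '' G ∩ ↑(RE (X + 3 * h) (R.x1 δ) (Y - 3 * h - 1) (Y + 3 * h)))
        (X + 3 * h + 1 - 1, y0) (R.x1 δ, y0') := by
      refine (reach_dl.mpr hyr0).mono ?_
      rintro _ ⟨e, he, rfl⟩
      rw [Finset.mem_coe, Finset.mem_sdiff] at he
      have k1 := t4_free R (δ := δ) (by omega) (by omega) (by omega) (by omega)
        (by omega) (TBE_subset_RE he.1)
      refine ⟨⟨e, ?_, rfl⟩, Finset.mem_coe.mpr ?_⟩
      · rw [hG]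
        refine ⟨Finset.mem_coe.mpr k1.1, ?_⟩
        rintro (hf | hf)
        · exact he.2 (Finset.mem_coe.mp hf)
        · exact k1.2 hf
      · have := t4_dl_RE (TBE_subset_RE he.1)
        rwa [show X + 3 * h + 1 - 1 = X + 3 * h by ring] at this
    have hcf : (cface v s).1 ≤ v.1 := by
      unfold cface
      simp only
      split_ifs <;> omega
    have m1 := cross_meet (F := dl '' G) (A := v.1 - 2 * h - 1) (B := v.1 + 6 * h)
      (C := Y - 3 * h - 1) (D := Y + 3 * h) (a := X + 3 * h + 1) (b := X + 5 * h - 1)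
      (c := v.2 - 2 * h - 1) (d := v.2 + 2 * h)
      (by omega) (by omega) (by omega) (by omega) (by omega) (by omega) s1
      (by omega) (by omega) s2 (by simp only; omega) (by simp only; omega)
    have m2 := cross_meet (F := dl '' G) (A := X + 3 * h) (B := R.x1 δ)
      (C := Y - 3 * h - 1) (D := Y + 3 * h) (a := X + 3 * h + 1) (b := X + 5 * h - 1)
      (c := Y - 3 * h - 1) (d := Y + 3 * h)
      (by omega) (by omega) (by omega) (by omega) (by omega) (by omega) s3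
      (by simp only; omega) (by simp only; omega) s2 (by simp only; omega) (by simp only; omega)
    have m3 : Reach (dl '' G) (R.x1 δ, y0') (cface v s) :=
      ((s3.symm.mono Set.inter_subset_left).trans (m2.mono Set.inter_subset_left)).trans
        (m1.symm.mono Set.inter_subset_left)
    refine ⟨(R.x1 δ, y0'), Or.inr (Or.inl ⟨rfl, ?_, ?_⟩), reach_dl.mp m3⟩
    · simp only; omega
    · simp only; omega

end Pool.Agent.U151.FS
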