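import Pool.Agent.U151.FS.MomL

/-!
Frostman's lemma on the lattice (after `Pool.Agent.H380R3.ARW.Frostman`), and the energy of the
resulting weights.
-/

set_option autoImplicit false

namespace Pool.Agent.U151.FS

open H973 hiding SR
open H974 H12S H934E H934F Finset

/-- index of the dyadic square of side `2 ^ l` containing `v` -/
def idx (l : ℕ) (v : Vtx) : Vtx := (v.1 / 2 ^ l, v.2 / 2 ^ l)

theorem idx_nest {l l' : ℕ} (h : l ≤ l') {x y : Vtx} (hxy : idx l x = idx l y) :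
    idx l' x = idx l' y := by
  obtain ⟨m, rfl⟩ := Nat.exists_eq_add_of_le h
  have key : ∀ z : Vtx, idx (l + m) z = idx m (idx l z) := by
    intro z
    unfold idx
    rw [pow_add, Int.ediv_ediv_of_nonneg (by positivity), Int.ediv_ediv_of_nonneg (by positivity)]
  rw [key, key, hxy]

/-- mass of the square of side `2 ^ l` with index `a` -/
noncomputable def mass (F : Finset Vtx) (ν : Vtx → ℝ) (l : ℕ) (a : Vtx) : ℝ :=
  ∑ y ∈ F with idx l y = a, ν y

theorem frost_greedy (k : ℕ) (cap : ℕ → ℝ) (hcap : ∀ l, 0 ≤ cap l) (F : Finset Vtx) :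
    ∃ ν : Vtx → ℝ, (∀ y, 0 ≤ ν y) ∧ (∀ l ≤ k, ∀ a, mass F ν l a ≤ cap l) ∧
      ∀ y ∈ F, ∃ l ≤ k, mass F ν l (idx l y) = cap l := by
  classical
  induction F using Finset.induction_on with
  | empty => exact ⟨fun _ => 0, fun _ => le_rfl, fun l _ a => by simpa [mass] using hcap l, by simp⟩
  | insert x F hx ih =>
    obtain ⟨ν, h0, h1, h2⟩ := ih
    obtain ⟨l0, hl0, hmin⟩ := Finset.exists_min_image (Finset.range (k + 1))
      (fun l => cap l - mass F ν l (idx l x)) ⟨0, by simp⟩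
    set δ : ℝ := cap l0 - mass F ν l0 (idx l0 x) with hδ
    have hl0' : l0 ≤ k := Nat.lt_succ_iff.1 (Finset.mem_range.1 hl0)
    have hδ0 : 0 ≤ δ := sub_nonneg.2 (h1 l0 hl0' _)
    set ν' : Vtx → ℝ := fun y => if y = x then δ else ν y with hν'
    have hold : ∀ l a, ∑ y ∈ F with idx l y = a, ν' y = mass F ν l a := by
      intro l a
      unfold mass
      refine Finset.sum_congr rfl fun y hy => ?_
      have : y ≠ x := fun h => hx (h ▸ (Finset.mem_filter.1 hy).1)
      simp [hν', this]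
    have hmass : ∀ l a, mass (insert x F) ν' l a = mass F ν l a + if idx l x = a then δ else 0 := by
      intro l a
      unfold mass
      rw [Finset.filter_insert]
      split_ifs with h
      · rw [Finset.sum_insert (by simp [hx]), hold]
        simp only [hν', if_true]
        unfold mass
        ring
      · rw [hold, add_zero]
        rfl
    refine ⟨ν', fun y => ?_, fun l hl a => ?_, fun y hy => ?_⟩
    · simp only [hν']
      split_ifs
      · exact hδ0
      · exact h0 y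
    · rw [hmass]
      split_ifs with h
      · subst h
        have := hmin l (Finset.mem_range.2 (Nat.lt_succ_iff.2 hl))
        linarith
      · rw [add_zero]; exact h1 l hl a
    · rcases Finset.mem_insert.1 hy with rfl | hy
      · refine ⟨l0, hl0', ?_⟩
        rw [hmass, if_pos rfl]
        linarith
      · obtain ⟨l, hl, ht⟩ := h2 y hy
        refine ⟨l, hl, ?_⟩
        rw [hmass]
        split_ifs with h
        · have := hmin l (Finset.mem_range.2 (Nat.lt_succ_iff.2 hl))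
          rw [h, ht] at this
          have h3 : δ = 0 := by linarith
          rw [ht, h3, add_zero]
        · rw [ht, add_zero]

/-- **Frostman's lemma**: weights on `F` of mass at most `cap l` in the squares of side `2 ^ l`, and
a cover of cost at most the total mass -/
theorem frost (k : ℕ) (cap : ℕ → ℝ) (hcap : ∀ l, 0 ≤ cap l) (F : Finset Vtx) :
    ∃ ν : Vtx → ℝ, (∀ y, 0 ≤ ν y) ∧ (∀ y, y ∉ F → ν y = 0) ∧
      (∀ l ≤ k, ∀ a, ∑ y ∈ F with idx l y = a, ν y ≤ cap l) ∧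
      ∃ C : Finset (ℕ × Vtx), (∀ y ∈ F, ∃ c ∈ C, idx c.1 y = c.2) ∧
        ∑ c ∈ C, cap c.1 ≤ ∑ y ∈ F, ν y := by
  classical
  obtain ⟨ν0, h0, h1, h2⟩ := frost_greedy k cap hcap F
  have hmax : ∀ y ∈ F, ∃ l ≤ k, mass F ν0 l (idx l y) = cap l ∧
      ∀ l' ≤ k, mass F ν0 l' (idx l' y) = cap l' → l' ≤ l := by
    intro y hy
    have hne : ((Finset.range (k + 1)).filter
        fun l => mass F ν0 l (idx l y) = cap l).Nonempty := by
      obtain ⟨l, hl, ht⟩ := h2 y hy
      exact ⟨l, Finset.mem_filter.2 ⟨Finset.mem_range.2 (Nat.lt_succ_iff.2 hl), ht⟩⟩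
    obtain ⟨l, hl, hm⟩ := Finset.exists_max_image _ id hne
    obtain ⟨hl1, hl2⟩ := Finset.mem_filter.1 hl
    refine ⟨l, Nat.lt_succ_iff.1 (Finset.mem_range.1 hl1), hl2, fun l' hl' ht => ?_⟩
    exact hm l' (Finset.mem_filter.2 ⟨Finset.mem_range.2 (Nat.lt_succ_iff.2 hl'), ht⟩)
  choose! lev hlev1 hlev2 hlev3 using hmax
  set τ : Vtx → ℕ × Vtx := fun y => (lev y, idx (lev y) y) with hτ
  have hfib : ∀ y' ∈ F, ∀ y ∈ F, idx (lev y') y = idx (lev y') y' → τ y = τ y' := by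
    intro y' hy' y hy h
    have hle : lev y' ≤ lev y := by
      refine hlev3 y hy _ (hlev1 y' hy') ?_
      rw [h]; exact hlev2 y' hy'
    have h3 : idx (lev y) y = idx (lev y) y' := idx_nest hle h
    have hge : lev y ≤ lev y' := by
      refine hlev3 y' hy' _ (hlev1 y hy) ?_
      rw [← h3]; exact hlev2 y hy
    have heq : lev y = lev y' := le_antisymm hge hle
    simp only [hτ, heq, h]
  refine ⟨fun y => if y ∈ F then ν0 y else 0, fun y => ?_, fun y hy => if_neg hy, ?_,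
    F.image τ, ?_, ?_⟩
  · simp only
    split_ifs
    · exact h0 y
    · exact le_rfl
  · intro l hl a
    refine le_trans (le_of_eq ?_) (h1 l hl a)
    unfold mass
    refine Finset.sum_congr rfl fun y hy => ?_
    exact if_pos (Finset.mem_filter.1 hy).1
  · intro y hy
    exact ⟨τ y, Finset.mem_image_of_mem _ hy, rfl⟩
  · have h5 : ∑ y ∈ F, (if y ∈ F then ν0 y else 0) = ∑ y ∈ F, ν0 y :=
      Finset.sum_congr rfl fun y hy => if_pos hy
    rw [h5, ← Finset.sum_fiberwise_of_maps_to (g := τ) (t := F.image τ)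
      (fun y hy => Finset.mem_image_of_mem _ hy)]
    refine le_of_eq (Finset.sum_congr rfl fun c hc => ?_)
    obtain ⟨y', hy', rfl⟩ := Finset.mem_image.1 hc
    have h6 := hlev2 y' hy'
    simp only [hτ]
    rw [← h6]
    unfold mass
    refine Finset.sum_congr ?_ fun _ _ => rfl
    ext y
    simp only [Finset.mem_filter]
    constructor
    · rintro ⟨hy, h⟩
      exact ⟨hy, hfib y' hy' y hy h⟩
    · rintro ⟨hy, h⟩
      refine ⟨hy, ?_⟩
      have h7 : lev y = lev y' := congrArg Prod.fst h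
      have h8 : idx (lev y) y = idx (lev y') y' := congrArg Prod.snd h
      rw [← h8, h7]

/-- Two vertices in the same square. -/
theorem nd_of_idx {l : ℕ} {x y : Vtx} (h : idx l x = idx l y) : nd x y ≤ 2 ^ l := by
  unfold idx at h
  rw [Prod.mk.injEq] at h
  have h2 : (0:ℤ) < 2 ^ l := by positivity
  unfold nd
  rw [max_le_iff, abs_le, abs_le]
  have a1 := Int.mul_ediv_add_emod x.1 (2 ^ l)
  have a2 := Int.mul_ediv_add_emod y.1 (2 ^ l)
  have a3 := Int.mul_ediv_add_emod x.2 (2 ^ l)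
  have a4 := Int.mul_ediv_add_emod y.2 (2 ^ l)
  have b1 := Int.emod_nonneg x.1 h2.ne'
  have b2 := Int.emod_nonneg y.1 h2.ne'
  have b3 := Int.emod_nonneg x.2 h2.ne'
  have b4 := Int.emod_nonneg y.2 h2.ne'
  have c1 := Int.emod_lt_of_pos x.1 h2
  have c2 := Int.emod_lt_of_pos y.1 h2
  have c3 := Int.emod_lt_of_pos x.2 h2
  have c4 := Int.emod_lt_of_pos y.2 h2
  rw [h.1] at a1
  rw [h.2] at a3
  refine ⟨⟨by linarith, by linarith⟩, by linarith, by linarith⟩

/-- A vertex at distance at most `2 ^ l` is in one of nine squares. -/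
theorem idx_near {l : ℕ} {v x : Vtx} (h : nd v x ≤ 2 ^ l) :
    idx l x ∈ Finset.Icc ((idx l v).1 - 1) ((idx l v).1 + 1) ×ˢ
      Finset.Icc ((idx l v).2 - 1) ((idx l v).2 + 1) := by
  unfold nd at h
  rw [max_le_iff, abs_le, abs_le] at h
  have h2 : (0:ℤ) < 2 ^ l := by positivity
  have key : ∀ a b : ℤ, -(2 ^ l) ≤ a - b → a - b ≤ 2 ^ l →
      a / 2 ^ l - 1 ≤ b / 2 ^ l ∧ b / 2 ^ l ≤ a / 2 ^ l + 1 := by
    intro a b h3 h4
    constructor
    · have : (a - 2 ^ l) / 2 ^ l ≤ b / 2 ^ l := Int.ediv_le_ediv h2 (by linarith)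
      rwa [Int.sub_ediv_of_dvd _ dvd_rfl, Int.ediv_self h2.ne'] at this
    · have : b / 2 ^ l ≤ (a + 2 ^ l) / 2 ^ l := Int.ediv_le_ediv h2 (by linarith)
      rwa [Int.add_ediv_of_dvd_right dvd_rfl, Int.ediv_self h2.ne'] at this
  unfold idx
  rw [Finset.mem_product, Finset.mem_Icc, Finset.mem_Icc]
  exact ⟨key v.1 x.1 h.1.1 h.1.2, key v.2 x.2 h.2.1 h.2.2⟩

/-- mass of balls -/
theorem ball_mass {F : Finset Vtx} {ν : Vtx → ℝ} (hν : ∀ y, 0 ≤ ν y) {l : ℕ} {c : ℝ}
    (hc : ∀ a, ∑ y ∈ F with idx l y = a, ν y ≤ c) (v : Vtx) :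
    ∑ x ∈ F with nd v x ≤ 2 ^ l, ν x ≤ 9 * c := by
  classical
  set T := Finset.Icc ((idx l v).1 - 1) ((idx l v).1 + 1) ×ˢ
      Finset.Icc ((idx l v).2 - 1) ((idx l v).2 + 1) with hT
  have hcard : T.card = 9 := by
    rw [hT, Finset.card_product, Int.card_Icc, Int.card_Icc]
    have e1 : ((idx l v).1 + 1 + 1 - ((idx l v).1 - 1)).toNat = 3 := by omega
    have e2 : ((idx l v).2 + 1 + 1 - ((idx l v).2 - 1)).toNat = 3 := by omega
    rw [e1, e2]
  calc ∑ x ∈ F with nd v x ≤ 2 ^ l, ν x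
      = ∑ a ∈ T, ∑ x ∈ (F.filter (fun x => nd v x ≤ 2 ^ l)).filter (fun x => idx l x = a), ν x := by
        rw [Finset.sum_fiberwise_of_maps_to]
        intro x hx
        exact idx_near (Finset.mem_filter.mp hx).2
    _ ≤ ∑ a ∈ T, c := by
        apply Finset.sum_le_sum
        intro a _
        refine le_trans (Finset.sum_le_sum_of_subset_of_nonneg ?_ (fun _ _ _ => hν _)) (hc a)
        intro x hx
        rw [Finset.mem_filter, Finset.mem_filter] at hx
        exact Finset.mem_filter.mpr ⟨hx.1.1, hx.2⟩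
    _ = 9 * c := by rw [Finset.sum_const, hcard, nsmul_eq_mul]; norm_num

/-- The potential of a Frostman measure. -/
theorem frost_pot {s b : ℝ} (hb : 0 ≤ b) (hbs : b < s) {F : Finset Vtx} {ν : Vtx → ℝ}
    (hν : ∀ y, 0 ≤ ν y) {n : ℕ}
    (hc : ∀ l ≤ n, ∀ a, ∑ y ∈ F with idx l y = a, ν y ≤ ((2:ℝ) ^ l) ^ s) {v : Vtx}
    (hv : ∀ x ∈ F, nd v x ≤ 2 ^ n) :
    ∑ x ∈ F, ν x * ((max (nd v x) 1 : ℤ) : ℝ) ^ (-b) ≤
      9 * 2 ^ b / (1 - (2:ℝ) ^ (-(s - b))) * ((2:ℝ) ^ n) ^ (s - b) := by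
  classical
  have h2 : (0:ℝ) < 2 := by norm_num
  have hsb : 0 < s - b := by linarith
  set ρ : ℝ := (2:ℝ) ^ (s - b) with hρ
  have hρ1 : 1 < ρ := Real.one_lt_rpow (by norm_num) hsb
  have hρ0 : 0 < ρ := by linarith
  have hinv : (2:ℝ) ^ (-(s - b)) = ρ⁻¹ := by rw [Real.rpow_neg h2.le]
  have hinv1 : ρ⁻¹ < 1 := inv_lt_one_of_one_lt₀ hρ1
  -- pointwise bound
  have key : ∀ x ∈ F, ((max (nd v x) 1 : ℤ) : ℝ) ^ (-b) ≤
      ∑ l ∈ Finset.range (n + 1), 2 ^ b * ((2:ℝ) ^ l) ^ (-b) * ind (nd v x ≤ 2 ^ l) := by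
    intro x hx
    have hm := t5_max_pos (nd v x)
    have hex : ∃ l : ℕ, nd v x ≤ 2 ^ l := ⟨n, hv x hx⟩
    set l := Nat.find hex with hl
    have hl1 : nd v x ≤ 2 ^ l := Nat.find_spec hex
    have hln : l ≤ n := Nat.find_min' hex (hv x hx)
    have hlow : ((2:ℝ) ^ l) / 2 ≤ ((max (nd v x) 1 : ℤ) : ℝ) := by
      rcases Nat.eq_zero_or_pos l with h0 | h0
      · rw [h0, pow_zero]
        have : (1:ℝ) ≤ ((max (nd v x) 1 : ℤ) : ℝ) := by exact_mod_cast le_max_right _ _
        linarith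
      · have h3 : ¬ nd v x ≤ 2 ^ (l - 1) := Nat.find_min hex (by omega)
        have h4 : (2:ℤ) ^ (l - 1) ≤ max (nd v x) 1 := by
          have := le_max_left (nd v x) 1
          omega
        have h5 : (2:ℝ) ^ (l - 1) ≤ ((max (nd v x) 1 : ℤ) : ℝ) := by exact_mod_cast h4
        have h6 : (2:ℝ) ^ l = 2 * 2 ^ (l - 1) := by
          rw [← pow_succ']
          congr 1
          omega
        rw [h6]
        linarith
    have h7 : ((max (nd v x) 1 : ℤ) : ℝ) ^ (-b) ≤ 2 ^ b * ((2:ℝ) ^ l) ^ (-b) := by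
      have h8 : ((max (nd v x) 1 : ℤ) : ℝ) ^ (-b) ≤ (((2:ℝ) ^ l) / 2) ^ (-b) :=
        Real.rpow_le_rpow_of_nonpos (by positivity) hlow (by linarith)
      refine h8.trans (le_of_eq ?_)
      rw [Real.div_rpow (by positivity) h2.le, Real.rpow_neg h2.le b]
      field_simp
    refine h7.trans ?_
    have h9 : 2 ^ b * ((2:ℝ) ^ l) ^ (-b) =
        2 ^ b * ((2:ℝ) ^ l) ^ (-b) * ind (nd v x ≤ 2 ^ l) := by rw [ind_of hl1, mul_one]
    rw [h9]
    exact Finset.single_le_sum (f := fun l => 2 ^ b * ((2:ℝ) ^ l) ^ (-b) * ind (nd v x ≤ 2 ^ l))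
      (fun l _ => mul_nonneg (by positivity) (ind_nonneg _)) (Finset.mem_range.mpr (by omega))
  calc ∑ x ∈ F, ν x * ((max (nd v x) 1 : ℤ) : ℝ) ^ (-b)
      ≤ ∑ x ∈ F, ν x * ∑ l ∈ Finset.range (n + 1),
          2 ^ b * ((2:ℝ) ^ l) ^ (-b) * ind (nd v x ≤ 2 ^ l) :=
        Finset.sum_le_sum (fun x hx => mul_le_mul_of_nonneg_left (key x hx) (hν x))
    _ = ∑ l ∈ Finset.range (n + 1), 2 ^ b * ((2:ℝ) ^ l) ^ (-b) *
          ∑ x ∈ F with nd v x ≤ 2 ^ l, ν x := by
        rw [Finset.sum_congr rfl (fun x _ => Finset.mul_sum _ _ _), Finset.sum_comm]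
        apply Finset.sum_congr rfl
        intro l _
        rw [Finset.mul_sum, Finset.sum_filter]
        apply Finset.sum_congr rfl
        intro x _
        split_ifs with h
        · rw [ind_of h]; ring
        · rw [ind_not_of h]; ring
    _ ≤ ∑ l ∈ Finset.range (n + 1), 2 ^ b * ((2:ℝ) ^ l) ^ (-b) * (9 * ((2:ℝ) ^ l) ^ s) := by
        apply Finset.sum_le_sum
        intro l hl
        have := Finset.mem_range.mp hl
        exact mul_le_mul_of_nonneg_left (ball_mass hν (hc l (by omega)) v) (by positivity)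
    _ = 9 * 2 ^ b * ∑ l ∈ Finset.range (n + 1), ρ ^ l := by
        rw [Finset.mul_sum]
        apply Finset.sum_congr rfl
        intro l _
        have e : ((2:ℝ) ^ l) ^ (-b) * ((2:ℝ) ^ l) ^ s = ρ ^ l := by
          rw [← Real.rpow_add (by positivity), hρ, ← Real.rpow_natCast, ← Real.rpow_natCast,
            ← Real.rpow_mul h2.le, ← Real.rpow_mul h2.le]
          congr 1
          ring
        rw [← e]
        ring
    _ ≤ 9 * 2 ^ b * (ρ ^ n / (1 - ρ⁻¹)) := by
        apply mul_le_mul_of_nonneg_left _ (by positivity)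
        rw [geom_sum_eq hρ1.ne', div_le_div_iff₀ (by linarith) (by linarith)]
        have h3 : ρ ^ (n + 1) = ρ ^ n * ρ := pow_succ _ _
        have h4 : ρ * ρ⁻¹ = 1 := mul_inv_cancel₀ hρ0.ne'
        have h5 : 0 < ρ ^ n := by positivity
        rw [h3]
        have h6 : (ρ ^ n * ρ - 1) * (1 - ρ⁻¹) = ρ ^ n * ρ - ρ ^ n * (ρ * ρ⁻¹) - (1 - ρ⁻¹) := by ring
        rw [h6, h4]
        linarith
    _ = _ := by
        rw [hinv]
        have e : ρ ^ n = ((2:ℝ) ^ n) ^ (s - b) := by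
          rw [hρ, ← Real.rpow_natCast, ← Real.rpow_natCast, ← Real.rpow_mul h2.le,
            ← Real.rpow_mul h2.le]
          congr 1
          ring
        rw [e]
        ring

end Pool.Agent.U151.FS
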