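import Pool.Agent.U151.FS.Conn

/-!
Second moment method for `k` independent configurations at a general place of the rectangle.
-/

set_option autoImplicit false

namespace Pool.Agent.U151.FS

open H973 hiding SR
open H974 H12S H934E H934F Finset
open Pool.Agent.U151.IP

variable {k : ℕ}

/-- All copies have the two connections. -/
def CK (X Y h xl xr : ℤ) (F : Finset (Edg × Fin k)) : Prop :=
  ∀ i, OL X Y h xl (sl i F) ∧ DR X Y h xr (sl i F)

/-- Weight of the vertices with arms in all copies. -/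
noncomputable def WV (s : Bool × Bool) (h : ℤ) (V : Finset Vtx) (w : Vtx → ℝ)
    (F : Finset (Edg × Fin k)) : ℝ := ∑ v ∈ V, w v * ind (E2k s h v F)

/-- Their energy. -/
noncomputable def EV (t : ℝ) (s : Bool × Bool) (h : ℤ) (V : Finset Vtx) (w : Vtx → ℝ)
    (F : Finset (Edg × Fin k)) : ℝ :=
  ∑ v ∈ V, ∑ x ∈ V, w v * w x * ((max (nd v x) 1 : ℤ) : ℝ) ^ (-t) *
    (ind (E2k s h v F) * ind (E2k s h x F))

/-- The energy of the weights. -/
noncomputable def IV (t : ℝ) (V : Finset Vtx) (w : Vtx → ℝ) : ℝ :=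
  ∑ v ∈ V, ∑ x ∈ V, w v * w x * ((max (nd v x) 1 : ℤ) : ℝ) ^ (-t)

/-- The good event. -/
def GdL (c0 E0 t : ℝ) (s : Bool × Bool) (X Y h xl xr : ℤ) (w : Vtx → ℝ)
    (F : Finset (Edg × Fin k)) : Prop :=
  CK X Y h xl xr F ∧ c0 * (h : ℝ) ^ (-((k : ℝ) / 4)) ≤ WV s h (box X Y h) w F ∧
    EV t s h (box X Y h) w F ≤ E0 * (h : ℝ) ^ (-((k : ℝ) / 2) - t)

theorem WV_nonneg (s : Bool × Bool) (h : ℤ) (V : Finset Vtx) {w : Vtx → ℝ} (hw : ∀ v, 0 ≤ w v)
    (F : Finset (Edg × Fin k)) : 0 ≤ WV s h V w F :=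
  Finset.sum_nonneg (fun v _ => mul_nonneg (hw v) (ind_nonneg _))

theorem EV_nonneg (t : ℝ) (s : Bool × Bool) (h : ℤ) (V : Finset Vtx) {w : Vtx → ℝ}
    (hw : ∀ v, 0 ≤ w v) (F : Finset (Edg × Fin k)) : 0 ≤ EV t s h V w F :=
  Finset.sum_nonneg (fun v _ => Finset.sum_nonneg (fun x _ =>
    mul_nonneg (mul_nonneg (mul_nonneg (hw v) (hw x)) (Real.rpow_nonneg (mx_pos _).le _))
      (mul_nonneg (ind_nonneg _) (ind_nonneg _))))

theorem WV_sq (s : Bool × Bool) (h : ℤ) (V : Finset Vtx) (w : Vtx → ℝ)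
    (F : Finset (Edg × Fin k)) : WV s h V w F * WV s h V w F = EV 0 s h V w F := by
  unfold WV EV
  rw [Finset.sum_mul_sum]
  apply Finset.sum_congr rfl
  intro v _
  apply Finset.sum_congr rfl
  intro x _
  rw [neg_zero, Real.rpow_zero]
  ring

/-- The hypotheses on the place. -/
structure Pl (X Y h xl xr : ℤ) (K : ℕ) (S : Finset Edg) : Prop where
  hh : 2 ≤ h
  hl : xl ≤ X - 7 * h
  hr : X + 7 * h ≤ xr
  hKl : X - 3 * h - 1 - xl ≤ (8 + 6 * (K : ℤ)) * h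
  hKr : xr - (X + 3 * h) ≤ (8 + 6 * (K : ℤ)) * h
  hS : RE xl xr (Y - 3 * h) (Y + 3 * h) ⊆ S

theorem Pl.UL {X Y h xl xr : ℤ} {K : ℕ} {S : Finset Edg} (P : Pl X Y h xl xr K S) :
    UL X Y h xl ⊆ S := by
  refine Finset.Subset.trans ?_ P.hS
  have := P.hh
  have := P.hr
  exact RE_subset le_rfl (by omega) le_rfl le_rfl

theorem Pl.UR {X Y h xl xr : ℤ} {K : ℕ} {S : Finset Edg} (P : Pl X Y h xl xr K S) :
    UR X Y h xr ⊆ S := by
  refine Finset.Subset.trans ?_ P.hS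
  have := P.hh
  have := P.hl
  exact RE_subset (by omega) le_rfl le_rfl le_rfl

theorem Pl.arm {X Y h xl xr : ℤ} {K : ℕ} {S : Finset Edg} (P : Pl X Y h xl xr K S) {v : Vtx}
    (hv : v ∈ box X Y h) :
    RE (v.1 - 6 * h) (v.1 + 6 * h) (v.2 - 2 * h) (v.2 + 2 * h) ⊆ S := by
  refine Finset.Subset.trans ?_ P.hS
  have := P.hh
  have := P.hl
  have := P.hr
  rw [mem_box] at hv
  exact RE_subset (by omega) (by omega) (by omega) (by omega)

/-- The constant of the gluing. -/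
noncomputable def gc (K : ℕ) : ℝ := (dlt * (1/2:ℝ)^(48 * (K + 1))) ^ 2

theorem gc_pos (K : ℕ) : 0 < gc K := by
  unfold gc
  exact pow_pos (mul_pos dlt_pos (pow_pos (by norm_num) _)) 2

/-- first moment -/
theorem mom1L {c : ℝ} (hc : 0 < c) {s : Bool × Bool}
    (hT2 : ∀ h : ℤ, 1 ≤ h → ∀ (v : Vtx) (S : Finset Edg),
      RE (v.1 - 6 * h) (v.1 + 6 * h) (v.2 - 2 * h) (v.2 + 2 * h) ⊆ S →
      c * (h : ℝ) ^ (-(1/4) : ℝ) ≤ Q S (E2 s h v))
    {X Y h xl xr : ℤ} {K : ℕ} {S : Finset Edg} (P : Pl X Y h xl xr K S)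
    {w : Vtx → ℝ} (hw : ∀ v, 0 ≤ w v) (hw1 : ∑ v ∈ box X Y h, w v = 1) :
    (gc K * c) ^ k * (h : ℝ) ^ (-((k : ℝ) / 4)) ≤
      Exk k S (fun F => WV s h (box X Y h) w F * ind (CK X Y h xl xr F)) := by
  have hh0 : (0:ℝ) < h := by
    have := P.hh
    exact_mod_cast (show (0:ℤ) < h by omega)
  have hg := gc_pos K
  have e0 : Exk k S (fun F => WV s h (box X Y h) w F * ind (CK X Y h xl xr F)) =
      ∑ v ∈ box X Y h, w v * ∏ _i : Fin k, Q S (fun F => E2 s h v F ∧ OL X Y h xl F ∧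
        DR X Y h xr F) := by
    have e1 : Exk k S (fun F => WV s h (box X Y h) w F * ind (CK X Y h xl xr F)) =
        Exk k S (fun F => ∑ v ∈ box X Y h,
          w v * ind (∀ i, E2 s h v (sl i F) ∧ OL X Y h xl (sl i F) ∧ DR X Y h xr (sl i F))) := by
      congr 1
      funext F
      unfold WV
      rw [Finset.sum_mul]
      apply Finset.sum_congr rfl
      intro v _
      rw [mul_assoc, ← ind_and]
      congr 1
      apply ind_congr
      unfold E2k CK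
      exact forall_and.symm
    rw [e1]
    unfold Exk
    rw [Ex_sum]
    apply Finset.sum_congr rfl
    intro v _
    rw [Ex_mul_left]
    congr 1
    exact Pr_all (1/2) S (fun _ F => E2 s h v F ∧ OL X Y h xl F ∧ DR X Y h xr F)
  rw [e0, ← one_mul ((gc K * c) ^ k * (h : ℝ) ^ (-((k : ℝ) / 4))), ← hw1, Finset.sum_mul]
  apply Finset.sum_le_sum
  intro v hv
  apply mul_le_mul_of_nonneg_left _ (hw v)
  rw [← pow_quarter hh0, ← mul_pow, Finset.prod_const, Finset.card_univ, Fintype.card_fin]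
  apply pow_le_pow_left₀
  · have := Real.rpow_nonneg hh0.le (-(1/4) : ℝ)
    positivity
  · refine le_trans ?_ (glue P.hh P.hl P.hr P.hKl P.hKr P.UL P.UR hv)
    rw [mul_assoc]
    have := P.hh
    exact mul_le_mul_of_nonneg_left (hT2 h (by omega) v S (P.arm hv)) hg.le

/-- expectation of the energy -/
theorem mom2L {C : ℝ} {s : Bool × Bool}
    (hT3 : ∀ h : ℤ, 1 ≤ h → ∀ v w : Vtx, nd v w ≤ 2 * h →
      ∀ (S : Finset Edg), RE (v.1 - 6 * h) (v.1 + 6 * h) (v.2 - 2 * h) (v.2 + 2 * h) ⊆ S →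
        RE (w.1 - 6 * h) (w.1 + 6 * h) (w.2 - 2 * h) (w.2 + 2 * h) ⊆ S → ∀ s : Bool × Bool,
      Q S (fun F => E2 s h v F ∧ E2 s h w F) ≤
        C * ((max (nd v w) 1 : ℤ) : ℝ) ^ (-(1/4) : ℝ) * (h : ℝ) ^ (-(1/4) : ℝ))
    (t : ℝ) {X Y h xl xr : ℤ} {K : ℕ} {S : Finset Edg} (P : Pl X Y h xl xr K S) {w : Vtx → ℝ}
    (hw : ∀ v, 0 ≤ w v) :
    Exk k S (EV t s h (box X Y h) w) ≤
      C ^ k * (h : ℝ) ^ (-((k : ℝ) / 4)) * IV (t + (k : ℝ) / 4) (box X Y h) w := by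
  have hh := P.hh
  have hh0 : (0:ℝ) < h := by exact_mod_cast (show (0:ℤ) < h by omega)
  have e0 : Exk k S (EV t s h (box X Y h) w) = ∑ v ∈ box X Y h, ∑ x ∈ box X Y h,
      w v * w x * ((max (nd v x) 1 : ℤ) : ℝ) ^ (-t) *
        ∏ _i : Fin k, Q S (fun F => E2 s h v F ∧ E2 s h x F) := by
    have e1 : Exk k S (EV t s h (box X Y h) w) =
        Exk k S (fun F => ∑ v ∈ box X Y h, ∑ x ∈ box X Y h,
        w v * w x * ((max (nd v x) 1 : ℤ) : ℝ) ^ (-t) *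
          ind (∀ i, E2 s h v (sl i F) ∧ E2 s h x (sl i F))) := by
      congr 1
      funext F
      unfold EV
      apply Finset.sum_congr rfl
      intro v _
      apply Finset.sum_congr rfl
      intro x _
      rw [← ind_and]
      congr 1
      apply ind_congr
      unfold E2k
      exact forall_and.symm
    rw [e1]
    unfold Exk
    rw [Ex_sum]
    apply Finset.sum_congr rfl
    intro v _
    rw [Ex_sum]
    apply Finset.sum_congr rfl
    intro x _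
    rw [Ex_mul_left]
    congr 1
    exact Pr_all (1/2) S (fun _ F => E2 s h v F ∧ E2 s h x F)
  rw [e0]
  unfold IV
  rw [Finset.mul_sum]
  apply Finset.sum_le_sum
  intro v hv
  rw [Finset.mul_sum]
  apply Finset.sum_le_sum
  intro x hx
  have hm := mx_pos (nd v x)
  have i1 := hT3 h (by omega) v x (box_nd hv hx) S (P.arm hv) (P.arm hx) s
  have i2 : ∏ _i : Fin k, Q S (fun F => E2 s h v F ∧ E2 s h x F) ≤
      (C * ((max (nd v x) 1 : ℤ) : ℝ) ^ (-(1/4) : ℝ) * (h : ℝ) ^ (-(1/4) : ℝ)) ^ k := by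
    rw [Finset.prod_const, Finset.card_univ, Fintype.card_fin]
    exact pow_le_pow_left₀ (Pr_nonneg okhalf _ _) i1 k
  refine (mul_le_mul_of_nonneg_left i2 (mul_nonneg (mul_nonneg (hw v) (hw x))
    (Real.rpow_nonneg hm.le _))).trans (le_of_eq ?_)
  rw [mul_pow, mul_pow, pow_quarter hh0, pow_quarter hm, neg_add, Real.rpow_add hm]
  ring

/-- The good event has positive probability. -/
theorem t5L : ∃ (s : Bool × Bool) (c C1 : ℝ), 0 < c ∧ 0 < C1 ∧
    ∀ (k K : ℕ) (M t : ℝ), 0 < M → ∀ (X Y h xl xr : ℤ) (S : Finset Edg), Pl X Y h xl xr K S →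
      ∀ w : Vtx → ℝ, (∀ v, 0 ≤ w v) → ∑ v ∈ box X Y h, w v = 1 →
      IV ((k : ℝ) / 4) (box X Y h) w ≤ M * (h : ℝ) ^ (-((k : ℝ) / 4)) →
      IV (t + (k : ℝ) / 4) (box X Y h) w ≤ M * (h : ℝ) ^ (-(t + (k : ℝ) / 4)) →
      ((gc K * c) ^ k) ^ 2 / (8 * C1 ^ k * M) ≤
        Qk k S (GdL ((gc K * c) ^ k / 2) (C1 ^ k * M / (((gc K * c) ^ k) ^ 2 / (8 * C1 ^ k * M)))
          t s X Y h xl xr w) := by
  obtain ⟨c, s, hc, hT2⟩ := t2 H934SL.st_L
  obtain ⟨C, hC, hT3⟩ := t3 H985T.st_A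
  refine ⟨s, c, C, hc, hC, ?_⟩
  intro k K M t hM X Y h xl xr S P w hw hw1 hI0 hIt
  have hg := gc_pos K
  have hh := P.hh
  have hh0 : (0:ℝ) < h := by exact_mod_cast (show (0:ℤ) < h by omega)
  set c1 : ℝ := gc K * c with hc1
  have hc1' : 0 < c1 := by positivity
  set p : ℝ := (c1 ^ k) ^ 2 / (8 * C ^ k * M) with hp
  have hp0 : 0 < p := by positivity
  have hU : 0 < (h : ℝ) ^ (-((k : ℝ) / 4)) := Real.rpow_pos_of_pos hh0 _
  have hU2 : (h : ℝ) ^ (-((k : ℝ) / 4)) * (h : ℝ) ^ (-((k : ℝ) / 4)) =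
      (h : ℝ) ^ (-((k : ℝ) / 2)) := by
    rw [← Real.rpow_add hh0]; congr 1; ring
  set V := box X Y h with hV
  set Z : Finset (Edg × Fin k) → ℝ := fun F => WV s h V w F * ind (CK X Y h xl xr F) with hZ
  have hZ0 : ∀ F, 0 ≤ Z F := fun F => mul_nonneg (WV_nonneg s h V hw F) (ind_nonneg _)
  have l1 : c1 ^ k * (h : ℝ) ^ (-((k : ℝ) / 4)) ≤ Exk k S Z := mom1L hc hT2 P hw hw1
  have l2 : Exk k S (fun F => Z F * Z F) ≤ C ^ k * M * (h : ℝ) ^ (-((k : ℝ) / 2)) := by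
    have i0 : Exk k S (fun F => Z F * Z F) ≤ Exk k S (EV 0 s h V w) := by
      apply Ex_mono okh
      intro F _
      rw [← WV_sq]
      have i1 : Z F ≤ WV s h V w F := by
        rw [hZ]
        exact mul_le_of_le_one_right (WV_nonneg s h V hw F) (ind_le_one _)
      exact mul_le_mul i1 i1 (hZ0 F) (WV_nonneg s h V hw F)
    have i1 := mom2L (k := k) hT3 0 P hw (s := s)
    rw [zero_add] at i1
    refine i0.trans (i1.trans ?_)
    rw [← hU2]
    calc C ^ k * (h : ℝ) ^ (-((k : ℝ) / 4)) * IV ((k : ℝ) / 4) V w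
        ≤ C ^ k * (h : ℝ) ^ (-((k : ℝ) / 4)) * (M * (h : ℝ) ^ (-((k : ℝ) / 4))) :=
          mul_le_mul_of_nonneg_left hI0 (by positivity)
      _ = _ := by ring
  have l3 : Exk k S (EV t s h V w) ≤ C ^ k * M * (h : ℝ) ^ (-((k : ℝ) / 2) - t) := by
    refine (mom2L (k := k) hT3 t P hw (s := s)).trans ?_
    have e : (h : ℝ) ^ (-((k : ℝ) / 2) - t) =
        (h : ℝ) ^ (-((k : ℝ) / 4)) * (h : ℝ) ^ (-(t + (k : ℝ) / 4)) := by
      rw [← Real.rpow_add hh0]; congr 1; ring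
    rw [e]
    calc C ^ k * (h : ℝ) ^ (-((k : ℝ) / 4)) * IV (t + (k : ℝ) / 4) V w
        ≤ C ^ k * (h : ℝ) ^ (-((k : ℝ) / 4)) * (M * (h : ℝ) ^ (-(t + (k : ℝ) / 4))) :=
          mul_le_mul_of_nonneg_left hIt (by positivity)
      _ = _ := by ring
  have hUh : 0 < (h : ℝ) ^ (-((k : ℝ) / 2)) := Real.rpow_pos_of_pos hh0 _
  have j1 := paleyG (p := fun _ => (1/2 : ℝ)) okh (S := cp k S) (f := Z) (fun F _ => hZ0 F)
    (m := c1 ^ k * (h : ℝ) ^ (-((k : ℝ) / 4))) (V := C ^ k * M * (h : ℝ) ^ (-((k : ℝ) / 2)))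
    (by positivity) (by positivity) l1 l2
  have e3 : (c1 ^ k * (h : ℝ) ^ (-((k : ℝ) / 4))) ^ 2 /
      (4 * (C ^ k * M * (h : ℝ) ^ (-((k : ℝ) / 2)))) = 2 * p := by
    rw [← hU2, hp]
    field_simp
    ring
  rw [e3] at j1
  have hU3 : 0 < (h : ℝ) ^ (-((k : ℝ) / 2) - t) := Real.rpow_pos_of_pos hh0 _
  have j2 := markovG (p := fun _ => (1/2 : ℝ)) okh (S := cp k S) (f := EV t s h V w)
    (fun F _ => EV_nonneg t s h V hw F)
    (t := C ^ k * M / p * (h : ℝ) ^ (-((k : ℝ) / 2) - t)) (by positivity)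
  have j3 : Exk k S (EV t s h V w) / (C ^ k * M / p * (h : ℝ) ^ (-((k : ℝ) / 2) - t)) ≤ p := by
    rw [div_le_iff₀ (by positivity)]
    refine l3.trans (le_of_eq ?_)
    field_simp
  have j4 : Qk k S (fun F => c1 ^ k * (h : ℝ) ^ (-((k : ℝ) / 4)) / 2 ≤ Z F) ≤
      Qk k S (GdL (c1 ^ k / 2) (C ^ k * M / p) t s X Y h xl xr w) +
      Qk k S (fun F => C ^ k * M / p * (h : ℝ) ^ (-((k : ℝ) / 2) - t) ≤ EV t s h V w F) := by
    refine le_trans ?_ (Pr_or_le okh (cp k S)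
      (GdL (c1 ^ k / 2) (C ^ k * M / p) t s X Y h xl xr w) _)
    apply Pr_mono okh
    intro F _ hF
    by_cases h5 : EV t s h V w F ≤ C ^ k * M / p * (h : ℝ) ^ (-((k : ℝ) / 2) - t)
    · left
      have hpos : 0 < Z F := lt_of_lt_of_le (by positivity) hF
      have hcr : CK X Y h xl xr F := by
        by_contra hn
        rw [hZ] at hpos
        simp only at hpos
        rw [ind_not_of hn, mul_zero] at hpos
        exact lt_irrefl _ hpos
      refine ⟨hcr, ?_, h5⟩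
      rw [hZ] at hF
      simp only at hF
      rw [ind_of hcr, mul_one] at hF
      refine le_trans (le_of_eq ?_) hF
      ring
    · exact Or.inr (le_of_not_ge h5)
  unfold Qk at j4 ⊢
  linarith [j1, j2.trans j3, j4]

/-! ### Paths -/

theorem t7L (R : Rect) {δ : ℝ} (hδ : 0 < δ) {X Y h : ℤ} (hh : 2 ≤ h)
    (hl : R.x0 δ < X - 7 * h) (hl0 : R.x0 δ ≤ 0) (hr : X + 7 * h < R.x1 δ)
    (hb : 0 < Y - 3 * h) (ht' : Y + 3 * h < R.y1 δ) {F : Finset (Edg × Fin k)}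
    {c0 E0 t : ℝ} {s : Bool × Bool} {w : Vtx → ℝ} (hw : ∀ v, 0 ≤ w v) (hc0 : 0 < c0)
    (hE0 : 0 < E0) (ht : 0 < t) (hG : GdL c0 E0 t s X Y h (R.x0 δ) (R.x1 δ) w F) {P : Set ℂ}
    (hP : ∀ v ∈ box X Y h, w v ≠ 0 → t7_pt δ s v ∈ P) {δ' : ℝ} (hδ' : δ ≤ δ') :
    Pool.Agent.H389R2.Dim.Good t δ' (2 ^ (-t) / (E0 / c0 ^ 2 * (δ * h) ^ (-t)))
      (P ∩ ⋂ i, R.path δ (sl i F)) := by
  obtain ⟨hC, hcard, hEn⟩ := hG
  have hh0 : (0 : ℝ) < (h : ℝ) := by exact_mod_cast (by omega : (0 : ℤ) < h)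
  have hE : 0 < E0 / c0 ^ 2 * (δ * h) ^ (-t) := by positivity
  have hcpos : (0 : ℝ) < WV s h (box X Y h) w F := lt_of_lt_of_le (by positivity) hcard
  have hδ0' : 0 < δ' := lt_of_lt_of_le hδ hδ'
  refine good_of_energy_w hδ0' ht.le hE (box X Y h) (t7_pt δ s)
    (fun v => w v * ind (E2k s h v F)) (fun v _ => mul_nonneg (hw v) (ind_nonneg _)) hcpos ?_ ?_
  · intro v hv hne
    have hne1 : w v ≠ 0 := fun h0 => hne (by rw [h0, zero_mul])
    have hne2 : E2k s h v F := by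
      by_contra hn
      exact hne (by rw [ind_not_of hn, mul_zero])
    refine ⟨hP v hv hne1, ?_⟩
    rw [Set.mem_iInter]
    intro i
    have h5 := t4g R hh hl hl0 hr hb ht' (hC i).1 (hC i).2 hv (hne2 i)
    unfold Rect.path
    rw [Set.mem_iUnion₂]
    exact ⟨(v, s), h5, left_mem_segment ℝ _ _⟩
  · have e1 : ∀ v ∈ box X Y h, ∀ x ∈ box X Y h,
        (w v * ind (E2k s h v F)) * (w x * ind (E2k s h x F)) *
          (max (dist (t7_pt δ s v) (t7_pt δ s x)) δ') ^ (-t) ≤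
        δ ^ (-t) * (w v * w x * ((max (nd v x) 1 : ℤ) : ℝ) ^ (-t) *
          (ind (E2k s h v F) * ind (E2k s h x F))) := by
      intro v _ x _
      have hm : (1 : ℝ) ≤ ((max (nd v x) 1 : ℤ) : ℝ) := by
        exact_mod_cast le_max_right (nd v x) 1
      have h7 : (max (dist (t7_pt δ s v) (t7_pt δ s x)) δ') ^ (-t) ≤
          δ ^ (-t) * ((max (nd v x) 1 : ℤ) : ℝ) ^ (-t) := by
        rw [← Real.mul_rpow hδ.le (by linarith)]
        refine Real.rpow_le_rpow_of_nonpos (by positivity) ?_ (by linarith)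
        have h6 := t7_dist hδ s v x
        rcases max_cases (nd v x) 1 with h | h
        · rw [h.1]; exact h6.trans (le_max_left _ _)
        · rw [h.1]; push_cast; rw [mul_one]; exact hδ'.trans (le_max_right _ _)
      have h8 : 0 ≤ (w v * ind (E2k s h v F)) * (w x * ind (E2k s h x F)) :=
        mul_nonneg (mul_nonneg (hw v) (ind_nonneg _)) (mul_nonneg (hw x) (ind_nonneg _))
      refine (mul_le_mul_of_nonneg_left h7 h8).trans (le_of_eq ?_)
      ring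
    refine (Finset.sum_le_sum fun v hv => Finset.sum_le_sum fun x hx => e1 v hv x hx).trans ?_
    have e2 : ∑ v ∈ box X Y h, ∑ x ∈ box X Y h, δ ^ (-t) *
        (w v * w x * ((max (nd v x) 1 : ℤ) : ℝ) ^ (-t) *
          (ind (E2k s h v F) * ind (E2k s h x F))) = δ ^ (-t) * EV t s h (box X Y h) w F := by
      unfold EV
      rw [Finset.mul_sum]
      refine Finset.sum_congr rfl fun v _ => ?_
      rw [Finset.mul_sum]
    rw [e2]
    have e3 : (c0 * (h : ℝ) ^ (-((k : ℝ) / 4))) ^ 2 ≤ (WV s h (box X Y h) w F) ^ 2 :=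
      pow_le_pow_left₀ (by positivity) hcard 2
    have e4 : (c0 * (h : ℝ) ^ (-((k : ℝ) / 4))) ^ 2 = c0 ^ 2 * (h : ℝ) ^ (-((k : ℝ) / 2)) := by
      rw [mul_pow, ← Real.rpow_natCast ((h : ℝ) ^ (-((k : ℝ) / 4))) 2, ← Real.rpow_mul hh0.le]
      congr 2
      push_cast
      ring
    rw [e4] at e3
    calc δ ^ (-t) * EV t s h (box X Y h) w F
        ≤ δ ^ (-t) * (E0 * (h : ℝ) ^ (-((k : ℝ) / 2) - t)) :=
          mul_le_mul_of_nonneg_left hEn (by positivity)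
      _ = E0 / c0 ^ 2 * (δ * h) ^ (-t) * (c0 ^ 2 * (h : ℝ) ^ (-((k : ℝ) / 2))) := by
          rw [Real.mul_rpow hδ.le hh0.le, sub_eq_add_neg, Real.rpow_add hh0]
          field_simp
      _ ≤ E0 / c0 ^ 2 * (δ * h) ^ (-t) * (WV s h (box X Y h) w F) ^ 2 :=
          mul_le_mul_of_nonneg_left e3 hE.le

end Pool.Agent.U151.FS
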