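import Pool.Agent.U151.FS.Wts
import Pool.Agent.U151.FS.MomL
import Pool.Agent.U151.IP.Crit
import Pool.Agent.H934R2.Expl.Pieces

/-!
Common points of `k` independent paths in a fixed compact set: lower bounds for the probability,
uniformly in the weak limit.
-/

set_option autoImplicit false

namespace Pool.Agent.U151.FS

open H973 hiding SR
open H974 H12S H934E H934F Finset MeasureTheory TopologicalSpace Filter Topology
open Pool.Agent.U151.IP
open Pool.Agent.H389R2.Dim (Good)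
open scoped ENNReal NNReal

variable {k : ℕ}

/-- Lower bound for the probability in the limit. -/
theorem lowerQ {t : ℝ} (ht : 0 < t)
    {μs : ℕ → ProbabilityMeasure (Fin k → NonemptyCompacts ℂ)}
    {μ : ProbabilityMeasure (Fin k → NonemptyCompacts ℂ)} (hμ : Tendsto μs atTop (𝓝 μ))
    {C : Set ℂ} (hC : IsCompact C) {c : ℝ} (hc : 0 < c) {ε : ℝ≥0∞}
    (h1 : ∀ δ : ℝ, 0 < δ → ∃ᶠ n in atTop, (μs n : Measure (Fin k → NonemptyCompacts ℂ))
        {K | ¬ Good t δ c (Metric.cthickening δ C ∩ ⋂ i, (K i : Set ℂ))} ≤ ε) :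
    (μ : Measure (Fin k → NonemptyCompacts ℂ))
      {K | ¬ ENNReal.ofReal t ≤ dimH (C ∩ ⋂ i, (K i : Set ℂ))} ≤ ε := by
  have hopen : ∀ δ : ℝ, IsOpen {K : Fin k → NonemptyCompacts ℂ |
      ¬ Good t δ c (Metric.cthickening δ C ∩ ⋂ i, (K i : Set ℂ))} := fun δ =>
    (isClosed_goodT t δ c (hC.cthickening)).isOpen_compl
  have h2 : ∀ δ : ℝ, 0 < δ → (μ : Measure (Fin k → NonemptyCompacts ℂ))
      {K : Fin k → NonemptyCompacts ℂ |
        ¬ Good t δ c (Metric.cthickening δ C ∩ ⋂ i, (K i : Set ℂ))} ≤ ε := by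
    intro δ hδ
    refine (ProbabilityMeasure.le_liminf_measure_open_of_tendsto hμ (hopen δ)).trans ?_
    exact liminf_le_of_frequently_le (h1 δ hδ)
  set W : ℕ → Set (Fin k → NonemptyCompacts ℂ) := fun m =>
    {K : Fin k → NonemptyCompacts ℂ | ¬ Good t (1 / ((m : ℝ) + 1)) c
      (Metric.cthickening (1 / ((m : ℝ) + 1)) C ∩ ⋂ i, (K i : Set ℂ))} with hW
  have hcl : ∀ K : Fin k → NonemptyCompacts ℂ, IsClosed (⋂ i, (K i : Set ℂ)) := fun K =>
    isClosed_iInter fun i => (K i).isCompact.isClosed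
  have h3 : ({K : Fin k → NonemptyCompacts ℂ | ¬ ENNReal.ofReal t ≤
      dimH (C ∩ ⋂ i, (K i : Set ℂ))} : Set (Fin k → NonemptyCompacts ℂ)) ⊆ ⋃ m : ℕ, W m := by
    intro K hK
    by_contra hcon
    simp only [hW, Set.mem_iUnion, Set.mem_ofPred_eq, not_exists, not_not] at hcon
    apply hK
    exact Pool.Agent.H389R2.Dim.le_dimH_of_good ht hc (hC.inter_right (hcl K)) (good_of_thick hC (hcl K) hcon)
  refine le_trans (measure_mono h3) ?_
  have hmono : Monotone W := by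
    intro m m' hmm K hK hG
    have h4 := Nat.one_div_le_one_div (α := ℝ) hmm
    exact hK ((hG.anti h4).mono
      (Set.inter_subset_inter_left _ (Metric.cthickening_mono h4 _)))
  rw [hmono.measure_iUnion]
  exact iSup_le fun m => h2 _ (by positivity)

/-- The place of the construction. -/
theorem place (R : Rect) {z0 : ℂ} {η : ℝ} (hη : 0 < η) (h1 : 8 * η ≤ z0.re + R.A)
    (h2 : 8 * η ≤ R.B - z0.re) (h3 : 8 * η ≤ z0.im) (h4 : 8 * η ≤ R.H - z0.im) {K : ℕ}
    (hK : R.A + R.B ≤ 3 * K * η) {δ : ℝ} (hδ : 0 < δ) (hδη : 16 * δ ≤ η) :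
    ∃ X Y h : ℤ, Pl X Y h (R.x0 δ) (R.x1 δ) K (R.edges δ) ∧ R.x0 δ < X - 7 * h ∧ R.x0 δ ≤ 0 ∧
      X + 7 * h < R.x1 δ ∧ 0 < Y - 3 * h ∧ Y + 3 * h < R.y1 δ ∧ 2 ≤ h ∧ δ * h ≤ η ∧
      η / 2 ≤ δ * h ∧
      ∀ (s : Bool × Bool) (z : ℂ), dist z z0 ≤ η / 4 →
        ∃ v ∈ box X Y h, dist (t7_pt δ s v) z ≤ δ := by
  set a : ℝ := z0.re / δ with ha
  set b : ℝ := z0.im / δ with hb
  set e : ℝ := η / δ with he
  have e16 : 16 ≤ e := by rw [he, le_div_iff₀ hδ]; exact hδη
  have q1 : 8 * e ≤ a + R.A / δ := by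
    rw [he, ha, ← mul_div_assoc, ← add_div]
    exact div_le_div_of_nonneg_right h1 hδ.le
  have q2 : 8 * e ≤ R.B / δ - a := by
    rw [he, ha, ← mul_div_assoc, ← sub_div]
    exact div_le_div_of_nonneg_right h2 hδ.le
  have q3 : 8 * e ≤ b := by
    rw [he, hb, ← mul_div_assoc]
    exact div_le_div_of_nonneg_right h3 hδ.le
  have q4 : 8 * e ≤ R.H / δ - b := by
    rw [he, hb, ← mul_div_assoc, ← sub_div]
    exact div_le_div_of_nonneg_right h4 hδ.le
  have q5 : R.A / δ + R.B / δ ≤ 3 * K * e := by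
    rw [he, ← mul_div_assoc, ← add_div]
    exact div_le_div_of_nonneg_right hK hδ.le
  set X : ℤ := ⌊a⌋ with hX
  set Y : ℤ := ⌊b⌋ with hY
  set h : ℤ := ⌊e⌋ with hh
  have X1 : (X : ℝ) ≤ a := Int.floor_le _
  have X2 : a < X + 1 := Int.lt_floor_add_one _
  have Y1 : (Y : ℝ) ≤ b := Int.floor_le _
  have Y2 : b < Y + 1 := Int.lt_floor_add_one _
  have H1 : (h : ℝ) ≤ e := Int.floor_le _
  have H2 : e < h + 1 := Int.lt_floor_add_one _
  have x0a : (R.x0 δ : ℝ) ≤ -(R.A / δ) + 1 := by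
    unfold Rect.x0
    push_cast
    have := Int.floor_le (-(R.A / δ))
    linarith
  have x0b : -(R.A / δ) < (R.x0 δ : ℝ) := by
    unfold Rect.x0
    push_cast
    exact Int.lt_floor_add_one _
  have x1a : R.B / δ - 1 ≤ (R.x1 δ : ℝ) := by
    unfold Rect.x1
    push_cast
    have := Int.le_ceil (R.B / δ)
    linarith
  have x1b : (R.x1 δ : ℝ) < R.B / δ := by
    unfold Rect.x1
    push_cast
    have := Int.ceil_lt_add_one (R.B / δ)
    linarith
  have y1a : R.H / δ - 2 ≤ (R.y1 δ : ℝ) := by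
    unfold Rect.y1
    push_cast
    have := Int.le_ceil (R.H / δ)
    linarith
  have A0 : 0 < R.A / δ := div_pos R.hA hδ
  have B0 : 0 < R.B / δ := div_pos R.hB hδ
  have hh2 : 2 ≤ h := by
    have : (1:ℝ) < h := by linarith
    have : (1:ℤ) < h := by exact_mod_cast this
    omega
  have g1 : R.x0 δ < X - 7 * h := by
    have : (R.x0 δ : ℝ) < X - 7 * h := by linarith
    exact_mod_cast this
  have g2 : R.x0 δ ≤ 0 := by
    unfold Rect.x0
    have : ⌊-(R.A / δ)⌋ < 0 := by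
      rw [Int.floor_lt]
      push_cast
      linarith
    omega
  have g3 : X + 7 * h < R.x1 δ := by
    have : (X : ℝ) + 7 * h < R.x1 δ := by linarith
    exact_mod_cast this
  have g4 : 0 < Y - 3 * h := by
    have : (0:ℝ) < Y - 3 * h := by linarith
    exact_mod_cast this
  have g5 : Y + 3 * h < R.y1 δ := by
    have : (Y : ℝ) + 3 * h < R.y1 δ := by linarith
    exact_mod_cast this
  have hK0 : (0:ℝ) ≤ K := Nat.cast_nonneg _
  have hKh : (K : ℝ) * e ≤ K * (2 * h) := mul_le_mul_of_nonneg_left (by linarith) hK0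
  have hKh2 : 0 ≤ (K : ℝ) * h := mul_nonneg hK0 (by linarith)
  refine ⟨X, Y, h, ⟨hh2, g1.le, g3.le, ?_, ?_, ?_⟩, g1, g2, g3, g4, g5, hh2, ?_, ?_, ?_⟩
  · have : (X : ℝ) - 3 * h - 1 - R.x0 δ ≤ (8 + 6 * (K : ℝ)) * h := by nlinarith
    exact_mod_cast this
  · have : (R.x1 δ : ℝ) - (X + 3 * h) ≤ (8 + 6 * (K : ℝ)) * h := by nlinarith
    exact_mod_cast this
  · rw [Rect.edges_eq]
    exact RE_subset le_rfl le_rfl (by omega) (by omega)
  · calc δ * (h : ℝ) ≤ δ * e := mul_le_mul_of_nonneg_left H1 hδ.le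
      _ = η := by rw [he]; field_simp
  · have i1 : δ * e = η := by rw [he]; field_simp
    have i2 : δ * e ≤ δ * (2 * h) := mul_le_mul_of_nonneg_left (by linarith) hδ.le
    linarith
  · intro s z hz
    have dre : |z.re - z0.re| ≤ η / 4 := by
      have := Complex.abs_re_le_norm (z - z0)
      rw [Complex.sub_re] at this
      rw [dist_eq_norm] at hz
      exact this.trans hz
    have dim : |z.im - z0.im| ≤ η / 4 := by
      have := Complex.abs_im_le_norm (z - z0)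
      rw [Complex.sub_im] at this
      rw [dist_eq_norm] at hz
      exact this.trans hz
    have dre' : |z.re / δ - a| ≤ e / 4 := by
      rw [ha, ← sub_div, abs_div, abs_of_pos hδ, he, div_le_iff₀ hδ]
      refine dre.trans (le_of_eq ?_)
      field_simp
    have dim' : |z.im / δ - b| ≤ e / 4 := by
      rw [hb, ← sub_div, abs_div, abs_of_pos hδ, he, div_le_iff₀ hδ]
      refine dim.trans (le_of_eq ?_)
      field_simp
    rw [abs_le] at dre' dim'
    obtain ⟨sx, hsx, hsx1, hsx2⟩ : ∃ sx : ℝ, (if s.1 then δ / 2 else -(δ / 2)) = δ * sx ∧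
        -(1/2) ≤ sx ∧ sx ≤ 1/2 := by
      by_cases hs : s.1 = true
      · exact ⟨1/2, by rw [if_pos hs]; ring, by norm_num, by norm_num⟩
      · exact ⟨-(1/2), by rw [if_neg hs]; ring, by norm_num, by norm_num⟩
    have r1 := abs_sub_round (z.re / δ - sx)
    have r2 := abs_sub_round (z.im / δ - 1)
    have r1' := abs_le.mp r1
    have r2' := abs_le.mp r2
    refine ⟨(round (z.re / δ - sx), round (z.im / δ - 1)), ?_, ?_⟩
    · rw [mem_box]
      simp only
      refine ⟨⟨?_, ?_⟩, ?_, ?_⟩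
      · have : (X : ℝ) - h ≤ (round (z.re / δ - sx) : ℤ) := by linarith [r1'.1, r1'.2]
        exact_mod_cast this
      · have : ((round (z.re / δ - sx) : ℤ) : ℝ) ≤ X + h := by linarith [r1'.1, r1'.2]
        exact_mod_cast this
      · have : (Y : ℝ) - h ≤ (round (z.im / δ - 1) : ℤ) := by linarith [r2'.1, r2'.2]
        exact_mod_cast this
      · have : ((round (z.im / δ - 1) : ℤ) : ℝ) ≤ Y + h := by linarith [r2'.1, r2'.2]
        exact_mod_cast this
    · rw [dist_eq_norm]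
      refine (Complex.norm_le_abs_re_add_abs_im _).trans ?_
      have e1 : (t7_pt δ s (round (z.re / δ - sx), round (z.im / δ - 1)) - z).re =
          -(δ * ((z.re / δ - sx) - (round (z.re / δ - sx) : ℤ))) := by
        unfold t7_pt pt
        simp only [Complex.sub_re, Complex.add_re, hsx]
        field_simp
        ring
      have e2 : (t7_pt δ s (round (z.re / δ - sx), round (z.im / δ - 1)) - z).im =
          -(δ * ((z.im / δ - 1) - (round (z.im / δ - 1) : ℤ))) := by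
        unfold t7_pt pt
        simp only [Complex.sub_im, Complex.add_im]
        field_simp
        ring
      rw [e1, e2, abs_neg, abs_neg, abs_mul, abs_mul, abs_of_pos hδ]
      have i1 := mul_le_mul_of_nonneg_left r1 hδ.le
      have i2 := mul_le_mul_of_nonneg_left r2 hδ.le
      linarith

/-- The probability of common points in a small compact set. -/
theorem posQ (R : Rect) (k : ℕ) {A : Set ℂ} (hA : IsCompact A) {σ t : ℝ} (ht : 0 < t)
    (htσ : t + (k : ℝ) / 4 < σ) (hσA : μH[σ] A ≠ 0) {z0 : ℂ} {η : ℝ} (hη : 0 < η)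
    (h1 : 8 * η ≤ z0.re + R.A) (h2 : 8 * η ≤ R.B - z0.re) (h3 : 8 * η ≤ z0.im)
    (h4 : 8 * η ≤ R.H - z0.im) (hAz : ∀ z ∈ A, dist z z0 ≤ η / 4) :
    ∃ q : ℝ, 0 < q ∧ ∀ (δ : ℕ → ℝ) (hδ : ∀ i, 0 < δ i), Tendsto δ atTop (𝓝 0) →
      ∀ μ : ProbabilityMeasure (NonemptyCompacts ℂ),
      Tendsto (fun i => R.law (hδ i)) atTop (𝓝 μ) →
      Measure.pi (fun _ : Fin k => (μ : Measure (NonemptyCompacts ℂ)))
        {K | ¬ ENNReal.ofReal t ≤ dimH (A ∩ ⋂ i, (K i : Set ℂ))} ≤ ENNReal.ofReal (1 - q) := by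
  have hk0 : (0:ℝ) ≤ (k : ℝ) / 4 := by positivity
  have hσ : 0 < σ := by linarith
  obtain ⟨κ, hκ, hgood⟩ := good_of_measure hσ hσA
  obtain ⟨M0, hM0, hW⟩ := exists_weights (b := t + (k : ℝ) / 4) hσ hκ hgood hη (by linarith) htσ
  obtain ⟨K, hK⟩ : ∃ K : ℕ, R.A + R.B ≤ 3 * K * η := by
    obtain ⟨K, hK⟩ := exists_nat_ge ((R.A + R.B) / (3 * η))
    refine ⟨K, ?_⟩
    rw [div_le_iff₀ (by positivity)] at hK
    linarith
  obtain ⟨s, c, C1, hc, hC1, h5⟩ := t5L
  have hg := gc_pos K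
  set M : ℝ := 2 ^ t * M0 with hM
  have h2t : (1:ℝ) ≤ 2 ^ t := Real.one_le_rpow (by norm_num) ht.le
  have hMpos : 0 < M := by positivity
  have hMM : M0 ≤ M := by
    rw [hM]
    nlinarith
  set c2 : ℝ := (gc K * c) ^ k with hc2
  have hc2pos : 0 < c2 := by positivity
  set q : ℝ := c2 ^ 2 / (8 * C1 ^ k * M) with hq
  have hqpos : 0 < q := by positivity
  set E0 : ℝ := C1 ^ k * M / q with hE0
  have hE0pos : 0 < E0 := by positivity
  set c0 : ℝ := c2 / 2 with hc0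
  have hc0pos : 0 < c0 := by positivity
  refine ⟨q, hqpos, ?_⟩
  intro δ hδ hlim μ hμ
  have hμ' := tendsto_pi hμ k
  have key := lowerQ (k := k) ht hμ' hA (c := 2 ^ (-t) / (E0 / c0 ^ 2 * (η / 2) ^ (-t)))
    (by positivity) (ε := ENNReal.ofReal (1 - q)) ?_
  · rwa [ProbabilityMeasure.toMeasure_pi] at key
  intro δ' hδ'
  apply Eventually.frequently
  filter_upwards [hlim.eventually_lt_const (lt_min hδ' (show 0 < η / 16 by positivity))] with i hi
  rw [lt_min_iff] at hi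
  obtain ⟨hi1, hi2⟩ := hi
  have hδi := hδ i
  obtain ⟨X, Y, h, P, g1, g2, g3, g4, g5, hh2, hδh, hδh2, hnear⟩ :=
    place R hη h1 h2 h3 h4 hK hδi (by linarith)
  have hh0 : (0:ℝ) < h := by exact_mod_cast (show (0:ℤ) < h by omega)
  obtain ⟨w, w1, w2, w3, w4⟩ := hW s X Y h (δ i) (by omega) hδi hδh
    (fun z hz => hnear s z (hAz z hz))
  have hI0 : IV ((k : ℝ) / 4) (box X Y h) w ≤ M * (h : ℝ) ^ (-((k : ℝ) / 4)) := by
    refine (IV_mono (b := t + (k : ℝ) / 4) (by linarith) (by omega) w1).trans ?_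
    have e2 : t + (k : ℝ) / 4 - (k : ℝ) / 4 = t := by ring
    rw [e2]
    calc (2 * (h : ℝ)) ^ t * IV (t + (k : ℝ) / 4) (box X Y h) w
        ≤ (2 * (h : ℝ)) ^ t * (M0 * (h : ℝ) ^ (-(t + (k : ℝ) / 4))) :=
          mul_le_mul_of_nonneg_left w3 (by positivity)
      _ = M * (h : ℝ) ^ (-((k : ℝ) / 4)) := by
          rw [Real.mul_rpow (by norm_num) hh0.le, hM, neg_add, Real.rpow_add hh0]
          have e3 : (h : ℝ) ^ t * (h : ℝ) ^ (-t) = 1 := by
            rw [← Real.rpow_add hh0]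
            simp
          calc 2 ^ t * (h : ℝ) ^ t * (M0 * ((h : ℝ) ^ (-t) * (h : ℝ) ^ (-((k : ℝ) / 4))))
              = 2 ^ t * M0 * ((h : ℝ) ^ t * (h : ℝ) ^ (-t)) * (h : ℝ) ^ (-((k : ℝ) / 4)) := by ring
            _ = _ := by rw [e3, mul_one]
  have hIt : IV (t + (k : ℝ) / 4) (box X Y h) w ≤ M * (h : ℝ) ^ (-(t + (k : ℝ) / 4)) :=
    w3.trans (mul_le_mul_of_nonneg_right hMM (by positivity))
  have h6 : q ≤ Qk k (R.edges (δ i)) (GdL c0 E0 t s X Y h (R.x0 (δ i)) (R.x1 (δ i)) w) :=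
    h5 k K M t hMpos X Y h (R.x0 (δ i)) (R.x1 (δ i)) (R.edges (δ i)) P w w1 w2 hI0 hIt
  have hmeas : MeasurableSet {K : Fin k → NonemptyCompacts ℂ |
      ¬ Good t δ' (2 ^ (-t) / (E0 / c0 ^ 2 * (η / 2) ^ (-t)))
        (Metric.cthickening δ' A ∩ ⋂ i, (K i : Set ℂ))} :=
    ((isClosed_goodT t δ' _ hA.cthickening).isOpen_compl).measurableSet
  rw [pi_law_apply R hδi hmeas]
  apply ENNReal.ofReal_le_ofReal
  have h7 : Qk k (R.edges (δ i)) (fun F => ¬ GdL c0 E0 t s X Y h (R.x0 (δ i)) (R.x1 (δ i)) w F) ≤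
      1 - q := by
    unfold Qk
    rw [Pr_not]
    unfold Qk at h6
    linarith
  refine le_trans (Pr_mono okh ?_) h7
  intro F hF hbad hgd
  apply hbad
  have hg' := t7L R hδi hh2 g1 g2 g3 g4 g5 w1 hc0pos hE0pos ht hgd
    (P := Metric.cthickening δ' A) ?_ hi1.le
  · intro s' hs' hcov
    refine le_trans ?_ (hg' s' hs' hcov)
    have h8 : (δ i * (h : ℝ)) ^ (-t) ≤ (η / 2) ^ (-t) :=
      Real.rpow_le_rpow_of_nonpos (by positivity) hδh2 (by linarith)
    have h9 : 0 < (δ i * (h : ℝ)) ^ (-t) := Real.rpow_pos_of_pos (by positivity) _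
    apply div_le_div_of_nonneg_left (by positivity) (by positivity)
    exact mul_le_mul_of_nonneg_left h8 (by positivity)
  · intro v hv hne
    obtain ⟨z, hz, hd⟩ := w4 v hv hne
    exact Metric.mem_cthickening_of_dist_le _ z _ _ hz (hd.trans hi1.le)

/-- The probability of common points in a compact set. -/
theorem posA (R : Rect) (hD : IsOpen R.D) (k : ℕ) {A : Set ℂ} (hA : IsCompact A) (hAD : A ⊆ R.D)
    {t : ℝ} (ht : 0 < t) (htA : ENNReal.ofReal (t + (k : ℝ) / 4) < dimH A) :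
    ∃ q : ℝ, 0 < q ∧ ∀ (δ : ℕ → ℝ) (hδ : ∀ i, 0 < δ i), Tendsto δ atTop (𝓝 0) →
      ∀ μ : ProbabilityMeasure (NonemptyCompacts ℂ),
      Tendsto (fun i => R.law (hδ i)) atTop (𝓝 μ) →
      Measure.pi (fun _ : Fin k => (μ : Measure (NonemptyCompacts ℂ)))
        {K | ¬ ENNReal.ofReal t ≤ dimH (A ∩ ⋂ i, (K i : Set ℂ))} ≤ ENNReal.ofReal (1 - q) := by
  have hk0 : (0:ℝ) ≤ (k : ℝ) / 4 := by positivity
  obtain ⟨σ, hσ1, hσ2⟩ : ∃ σ : ℝ≥0, ENNReal.ofReal (t + (k : ℝ) / 4) < σ ∧ (σ : ℝ≥0∞) < dimH A :=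
    ENNReal.lt_iff_exists_nnreal_btwn.mp htA
  have htσ : t + (k : ℝ) / 4 < σ := by
    rw [ENNReal.ofReal_lt_coe_iff (by positivity)] at hσ1
    exact hσ1
  have hμA : μH[(σ : ℝ)] A = ∞ := hausdorffMeasure_of_lt_dimH hσ2
  obtain ⟨n, hn⟩ := compact_inn hD hA hAD
  set η : ℝ := 1 / (16 * ((n : ℝ) + 1)) with hη
  have hηpos : 0 < η := by positivity
  have hη16 : 16 * η = 1 / ((n : ℝ) + 1) := by
    rw [hη]; field_simp
  -- choose a piece
  obtain ⟨T, hTA, hTf, hTcov⟩ := hA.finite_cover_balls (e := η / 4) (by positivity)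
  obtain ⟨z0, hz0T, hz0⟩ : ∃ z0 ∈ T, μH[(σ : ℝ)] (A ∩ Metric.closedBall z0 (η / 4)) ≠ 0 := by
    by_contra hcon
    push Not at hcon
    have : A ⊆ ⋃ z ∈ T, A ∩ Metric.closedBall z (η / 4) := by
      intro z hz
      obtain ⟨x, hx, hzx⟩ := Set.mem_iUnion₂.mp (hTcov hz)
      exact Set.mem_iUnion₂.mpr ⟨x, hx, hz, Metric.ball_subset_closedBall hzx⟩
    have h0 : μH[(σ : ℝ)] A = 0 := by
      refine measure_mono_null this ?_
      rw [measure_biUnion_null_iff hTf.countable]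
      exact hcon
    rw [h0] at hμA
    exact absurd hμA (by norm_num)
  have hz0D : Metric.ball z0 (1 / ((n : ℝ) + 1)) ⊆ R.D := hn (hTA hz0T)
  have hin : ∀ w : ℂ, ‖w‖ < 16 * η → z0 + w ∈ R.D := by
    intro w hw
    apply hz0D
    rw [Metric.mem_ball, dist_eq_norm, add_sub_cancel_left, ← hη16]
    exact hw
  have b1 := hin (((-(8 * η) : ℝ)) : ℂ) (by
    rw [Complex.norm_real, Real.norm_eq_abs, abs_neg, abs_of_pos (by positivity)]
    linarith)
  have b2 := hin (((8 * η : ℝ)) : ℂ) (by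
    rw [Complex.norm_real, Real.norm_eq_abs, abs_of_pos (by positivity)]
    linarith)
  have b3 := hin (((-(8 * η) : ℝ)) * Complex.I) (by
    rw [norm_mul, Complex.norm_I, mul_one, Complex.norm_real, Real.norm_eq_abs, abs_neg,
      abs_of_pos (by positivity)]
    linarith)
  have b4 := hin (((8 * η : ℝ)) * Complex.I) (by
    rw [norm_mul, Complex.norm_I, mul_one, Complex.norm_real, Real.norm_eq_abs,
      abs_of_pos (by positivity)]
    linarith)
  obtain ⟨q, hq, hmain⟩ := posQ R k (hA.inter_right (Metric.isClosed_closedBall))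
    ht htσ hz0 hηpos (z0 := z0)
    (by have := b1.1; simp at this; linarith)
    (by have := b2.2.1; simp at this; linarith)
    (by have := b3.2.2.1; simp at this; linarith)
    (by have := b4.2.2.2; simp at this; linarith)
    (fun z hz => hz.2)
  refine ⟨q, hq, fun δ hδ hlim μ hμ => ?_⟩
  refine le_trans (measure_mono ?_) (hmain δ hδ hlim μ hμ)
  intro K hK hle
  apply hK
  exact hle.trans (dimH_mono (Set.inter_subset_inter_left _ Set.inter_subset_left))

end Pool.Agent.U151.FS
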