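import Pool.Agent.U151.FS.Frost

/-!
Weights of small energy on the lattice points near a set of positive Hausdorff measure.
-/

set_option autoImplicit false

namespace Pool.Agent.U151.FS

open H973 hiding SR
open H974 H12S H934E H934F Finset
open Pool.Agent.U151.IP
open Pool.Agent.H389R2.Dim (Good)
open MeasureTheory
open scoped ENNReal NNReal

theorem ediam_ball_le' (x : ℂ) {r : ℝ} (_hr : 0 ≤ r) :
    Metric.ediam (Metric.ball x r) ≤ ENNReal.ofReal (2 * r) := by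
  rw [← Metric.eball_ofReal]
  refine Metric.ediam_eball_le.trans (le_of_eq ?_)
  rw [ENNReal.ofReal_mul (by norm_num)]
  norm_num

/-- Positive Hausdorff measure gives a positive content. -/
theorem good_of_measure {σ : ℝ} (hσ : 0 < σ) {A : Set ℂ} (hA : μH[σ] A ≠ 0) :
    ∃ κ : ℝ, 0 < κ ∧ ∀ δ : ℝ, 0 < δ → Good σ δ κ A := by
  by_contra hcon
  push Not at hcon
  apply hA
  have h1 : ∀ n : ℕ, ∃ s : Finset (ℂ × ℝ), (∀ p ∈ s, 0 < p.2) ∧
      A ⊆ ⋃ p ∈ s, Metric.ball p.1 p.2 ∧ ∑ p ∈ s, p.2 ^ σ < (1/2) ^ n := by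
    intro n
    obtain ⟨δ, hδ, h2⟩ := hcon ((1/2) ^ n) (by positivity)
    unfold Good at h2
    push Not at h2
    obtain ⟨s, hs, hcov, hsum⟩ := h2
    exact ⟨s, fun p hp => lt_of_lt_of_le hδ (hs p hp), hcov, hsum⟩
  choose s hs hcov hsum using h1
  -- the radii tend to zero
  set r : ℕ → ℝ≥0∞ := fun n => ENNReal.ofReal (2 * (((1:ℝ)/2) ^ n) ^ (1 / σ)) with hr
  have hr0 : Filter.Tendsto r Filter.atTop (nhds 0) := by
    have h2 : Filter.Tendsto (fun n : ℕ => 2 * (((1:ℝ)/2) ^ n) ^ (1 / σ)) Filter.atTop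
        (nhds (2 * (0:ℝ) ^ (1 / σ))) := by
      apply Filter.Tendsto.const_mul
      have h3 : Filter.Tendsto (fun n : ℕ => ((1:ℝ)/2) ^ n) Filter.atTop (nhds 0) :=
        tendsto_pow_atTop_nhds_zero_of_lt_one (by norm_num) (by norm_num)
      exact (Real.continuousAt_rpow_const _ _ (Or.inr (by positivity))).tendsto.comp h3
    rw [Real.zero_rpow (by positivity), mul_zero] at h2
    have h3 := ENNReal.tendsto_ofReal h2
    rwa [ENNReal.ofReal_zero] at h3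
  have hrad : ∀ n, ∀ p ∈ s n, p.2 ≤ (((1:ℝ)/2) ^ n) ^ (1 / σ) := by
    intro n p hp
    have h2 : p.2 ^ σ ≤ (1/2) ^ n := by
      refine le_trans ?_ (hsum n).le
      exact Finset.single_le_sum (f := fun p : ℂ × ℝ => p.2 ^ σ)
        (fun q hq => Real.rpow_nonneg (hs n q hq).le _) hp
    have h3 : (p.2 ^ σ) ^ (1 / σ) ≤ (((1:ℝ)/2) ^ n) ^ (1 / σ) :=
      Real.rpow_le_rpow (Real.rpow_nonneg (hs n p hp).le _) h2 (by positivity)
    rwa [← Real.rpow_mul (hs n p hp).le, mul_one_div_cancel hσ.ne', Real.rpow_one] at h3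
  have hle := Measure.hausdorffMeasure_le_liminf_sum (ι := fun n => {p // p ∈ s n}) σ A
    (l := Filter.atTop) r hr0 (fun n p => Metric.ball p.1.1 p.1.2)
    (Filter.Eventually.of_forall fun n p => by
      refine (ediam_ball_le' p.1.1 (hs n p.1 p.2).le).trans ?_
      rw [hr]
      exact ENNReal.ofReal_le_ofReal (mul_le_mul_of_nonneg_left (hrad n p.1 p.2) (by norm_num)))
    (Filter.Eventually.of_forall fun n => by
      refine (hcov n).trans ?_
      intro z hz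
      obtain ⟨p, hp, hz2⟩ := Set.mem_iUnion₂.mp hz
      exact Set.mem_iUnion.mpr ⟨⟨p, hp⟩, hz2⟩)
  apply le_antisymm _ zero_le
  refine hle.trans ?_
  have hbound : ∀ n : ℕ, ∑ p : {p // p ∈ s n}, Metric.ediam (Metric.ball p.1.1 p.1.2) ^ σ ≤
      ENNReal.ofReal (2 ^ σ * (1/2) ^ n) := by
    intro n
    have h2 : ∀ p : {p // p ∈ s n}, Metric.ediam (Metric.ball p.1.1 p.1.2) ^ σ ≤
        ENNReal.ofReal (2 ^ σ * p.1.2 ^ σ) := by
      intro p
      have h3 := ediam_ball_le' p.1.1 (hs n p.1 p.2).le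
      refine (ENNReal.rpow_le_rpow h3 hσ.le).trans (le_of_eq ?_)
      rw [ENNReal.ofReal_rpow_of_nonneg (by have := (hs n p.1 p.2); positivity) hσ.le,
        Real.mul_rpow (by norm_num) (hs n p.1 p.2).le]
    refine (Finset.sum_le_sum fun p _ => h2 p).trans ?_
    rw [← ENNReal.ofReal_sum_of_nonneg (fun p _ => by
      have := Real.rpow_nonneg (hs n p.1 p.2).le σ
      positivity)]
    apply ENNReal.ofReal_le_ofReal
    rw [← Finset.mul_sum]
    apply mul_le_mul_of_nonneg_left _ (by positivity)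
    rw [Finset.sum_coe_sort (s n) (fun p => p.2 ^ σ)]
    exact (hsum n).le
  have hlim : Filter.Tendsto (fun n : ℕ => ENNReal.ofReal (2 ^ σ * (1/2) ^ n)) Filter.atTop
      (nhds 0) := by
    have h2 : Filter.Tendsto (fun n : ℕ => 2 ^ σ * ((1:ℝ)/2) ^ n) Filter.atTop
        (nhds (2 ^ σ * 0)) :=
      (tendsto_pow_atTop_nhds_zero_of_lt_one (by norm_num) (by norm_num)).const_mul _
    rw [mul_zero] at h2
    have h3 := ENNReal.tendsto_ofReal h2
    rwa [ENNReal.ofReal_zero] at h3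
  calc Filter.liminf (fun n => ∑ p : {p // p ∈ s n},
        Metric.ediam (Metric.ball p.1.1 p.1.2) ^ σ) Filter.atTop
      ≤ Filter.liminf (fun n : ℕ => ENNReal.ofReal (2 ^ σ * (1/2) ^ n)) Filter.atTop :=
        Filter.liminf_le_liminf (Filter.Eventually.of_forall hbound)
    _ = 0 := hlim.liminf_eq

theorem IV_mono {b b' : ℝ} (hb : b' ≤ b) {X Y h : ℤ} (hh : 1 ≤ h) {w : Vtx → ℝ}
    (hw : ∀ v, 0 ≤ w v) :
    IV b' (box X Y h) w ≤ (2 * (h : ℝ)) ^ (b - b') * IV b (box X Y h) w := by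
  have hh0 : (0:ℝ) < h := by exact_mod_cast (show (0:ℤ) < h by omega)
  unfold IV
  rw [Finset.mul_sum]
  apply Finset.sum_le_sum
  intro v hv
  rw [Finset.mul_sum]
  apply Finset.sum_le_sum
  intro x hx
  have hm := mx_pos (nd v x)
  have hm2 : ((max (nd v x) 1 : ℤ) : ℝ) ≤ 2 * (h : ℝ) := by
    have : max (nd v x) 1 ≤ 2 * h := max_le (box_nd hv hx) (by omega)
    exact_mod_cast this
  have e : ((max (nd v x) 1 : ℤ) : ℝ) ^ (-b') =
      ((max (nd v x) 1 : ℤ) : ℝ) ^ (b - b') * ((max (nd v x) 1 : ℤ) : ℝ) ^ (-b) := by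
    rw [← Real.rpow_add hm]
    congr 1
    ring
  have i1 : ((max (nd v x) 1 : ℤ) : ℝ) ^ (b - b') ≤ (2 * (h : ℝ)) ^ (b - b') :=
    Real.rpow_le_rpow hm.le hm2 (by linarith)
  rw [e]
  have i2 : 0 ≤ w v * w x * ((max (nd v x) 1 : ℤ) : ℝ) ^ (-b) :=
    mul_nonneg (mul_nonneg (hw v) (hw x)) (Real.rpow_nonneg hm.le _)
  calc w v * w x * (((max (nd v x) 1 : ℤ) : ℝ) ^ (b - b') * ((max (nd v x) 1 : ℤ) : ℝ) ^ (-b))
      = ((max (nd v x) 1 : ℤ) : ℝ) ^ (b - b') *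
        (w v * w x * ((max (nd v x) 1 : ℤ) : ℝ) ^ (-b)) := by ring
    _ ≤ _ := mul_le_mul_of_nonneg_right i1 i2

theorem dist_le_nd {δ : ℝ} (hδ : 0 < δ) (s : Bool × Bool) (v w : Vtx) :
    dist (t7_pt δ s v) (t7_pt δ s w) ≤ 2 * δ * ((nd v w : ℤ) : ℝ) := by
  rw [dist_eq_norm]
  have h := Complex.norm_le_abs_re_add_abs_im (t7_pt δ s v - t7_pt δ s w)
  rw [t7_re, t7_im, abs_mul, abs_mul, abs_of_pos hδ] at h
  have h1 : |(v.1 : ℝ) - w.1| ≤ ((nd v w : ℤ) : ℝ) := by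
    have : |v.1 - w.1| ≤ nd v w := le_max_left _ _
    exact_mod_cast this
  have h2 : |(v.2 : ℝ) - w.2| ≤ ((nd v w : ℤ) : ℝ) := by
    have : |v.2 - w.2| ≤ nd v w := le_max_right _ _
    exact_mod_cast this
  have h3 := mul_le_mul_of_nonneg_left h1 hδ.le
  have h4 := mul_le_mul_of_nonneg_left h2 hδ.le
  linarith

/-- Weights near a set of positive content. -/
theorem exists_weights {σ κ η b : ℝ} (hσ : 0 < σ) (hκ : 0 < κ) {A : Set ℂ}
    (hgood : ∀ δ : ℝ, 0 < δ → Good σ δ κ A) (hη : 0 < η) (hb : 0 ≤ b) (hbσ : b < σ) :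
    ∃ M : ℝ, 0 < M ∧ ∀ (s : Bool × Bool) (X Y h : ℤ) (δ : ℝ), 1 ≤ h → 0 < δ → δ * h ≤ η →
      (∀ z ∈ A, ∃ v ∈ box X Y h, dist (t7_pt δ s v) z ≤ δ) →
      ∃ w : Vtx → ℝ, (∀ v, 0 ≤ w v) ∧ ∑ v ∈ box X Y h, w v = 1 ∧
        IV b (box X Y h) w ≤ M * (h : ℝ) ^ (-b) ∧
        ∀ v ∈ box X Y h, w v ≠ 0 → ∃ z ∈ A, dist (t7_pt δ s v) z ≤ δ := by
  classical
  have hsb : 0 < σ - b := by linarith
  have h2p : (2:ℝ) ^ (-(σ - b)) < 1 := Real.rpow_lt_one_of_one_lt_of_neg (by norm_num) (by linarith)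
  set C0 : ℝ := 9 * 2 ^ b / (1 - (2:ℝ) ^ (-(σ - b))) with hC0
  have hC0p : 0 < C0 := by
    rw [hC0]
    apply div_pos (by positivity)
    linarith
  refine ⟨C0 * 4 ^ (σ - b) * 4 ^ σ * η ^ σ / κ, by positivity, ?_⟩
  intro s X Y h δ hh hδ hδh hnear
  have hh0 : (0:ℝ) < h := by exact_mod_cast (show (0:ℤ) < h by omega)
  set F : Finset Vtx := (box X Y h).filter (fun v => ∃ z ∈ A, dist (t7_pt δ s v) z ≤ δ) with hF
  have hFb : F ⊆ box X Y h := Finset.filter_subset _ _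
  -- the top scale
  set n : ℕ := Nat.clog 2 (2 * h).toNat with hn
  have hN : 1 < (2 * h).toNat := by omega
  have hn1 : (2 * h : ℤ) ≤ 2 ^ n := by
    have : (2 * h).toNat ≤ 2 ^ n := Nat.le_pow_clog (by norm_num) _
    have h3 : (((2 * h).toNat : ℕ) : ℤ) ≤ ((2 ^ n : ℕ) : ℤ) := by exact_mod_cast this
    push_cast at h3
    omega
  have hn2 : ((2:ℝ) ^ n) ≤ 4 * h := by
    have h3 : 2 ^ (n - 1) < (2 * h).toNat := Nat.pow_pred_clog_lt_self (by norm_num) hN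
    have hn0 : 0 < n := Nat.clog_pos (by norm_num) hN
    have h4 : (2:ℝ) ^ n = 2 * 2 ^ (n - 1) := by
      rw [← pow_succ']
      congr 1
      omega
    have h5 : ((2 ^ (n - 1) : ℕ) : ℤ) < 2 * h := by omega
    have h6 : ((2:ℝ) ^ (n - 1)) < 2 * h := by
      have : (((2 ^ (n - 1) : ℕ) : ℤ) : ℝ) < ((2 * h : ℤ) : ℝ) := by exact_mod_cast h5
      push_cast at this
      exact this
    rw [h4]
    linarith
  obtain ⟨ν, hν0, hνF, hcap, C, hCcov, hCsum⟩ := frost n (fun l => ((2:ℝ) ^ l) ^ σ)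
    (fun l => by positivity) F
  set T : ℝ := ∑ y ∈ F, ν y with hT
  -- lower bound for the total mass
  have hTlow : κ ≤ (4 * δ) ^ σ * T := by
    set C' := C.filter (fun c => ∃ y ∈ F, idx c.1 y = c.2) with hC'
    have hrep : ∀ c ∈ C', ∃ y, y ∈ F ∧ idx c.1 y = c.2 := by
      intro c hc
      obtain ⟨y, hy1, hy2⟩ := (Finset.mem_filter.mp hc).2
      exact ⟨y, hy1, hy2⟩
    choose! rep hrep1 hrep2 using hrep
    have h1 := hgood δ hδ (C'.image (fun c => (t7_pt δ s (rep c), 4 * δ * 2 ^ c.1))) (by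
      intro p hp
      obtain ⟨c, _, rfl⟩ := Finset.mem_image.mp hp
      have : (1:ℝ) ≤ 2 ^ c.1 := one_le_pow₀ (by norm_num)
      show δ ≤ 4 * δ * 2 ^ c.1
      nlinarith) (by
      intro z hz
      obtain ⟨v, hv, hd⟩ := hnear z hz
      have hvF : v ∈ F := Finset.mem_filter.mpr ⟨hv, z, hz, hd⟩
      obtain ⟨c, hc, hcv⟩ := hCcov v hvF
      have hcC' : c ∈ C' := Finset.mem_filter.mpr ⟨hc, v, hvF, hcv⟩
      refine Set.mem_iUnion₂.mpr ⟨(t7_pt δ s (rep c), 4 * δ * 2 ^ c.1),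
        Finset.mem_image_of_mem _ hcC', ?_⟩
      rw [Metric.mem_ball]
      have h3 : nd v (rep c) ≤ 2 ^ c.1 := nd_of_idx (hcv.trans (hrep2 c hcC').symm)
      have h4 : ((nd v (rep c) : ℤ) : ℝ) ≤ 2 ^ c.1 := by exact_mod_cast h3
      have h5 := dist_le_nd hδ s v (rep c)
      have h6 : 2 * δ * ((nd v (rep c) : ℤ) : ℝ) ≤ 2 * δ * 2 ^ c.1 :=
        mul_le_mul_of_nonneg_left h4 (by positivity)
      have h7 : (1:ℝ) ≤ 2 ^ c.1 := one_le_pow₀ (by norm_num)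
      have h8 : δ * 1 ≤ δ * 2 ^ c.1 := mul_le_mul_of_nonneg_left h7 hδ.le
      have h9 := dist_triangle z (t7_pt δ s v) (t7_pt δ s (rep c))
      rw [dist_comm z (t7_pt δ s v)] at h9
      have h10 : 0 < δ * 2 ^ c.1 := by positivity
      show dist z (t7_pt δ s (rep c)) < 4 * δ * 2 ^ c.1
      linarith)
    refine h1.trans ?_
    calc ∑ p ∈ C'.image (fun c => (t7_pt δ s (rep c), 4 * δ * 2 ^ c.1)), p.2 ^ σ
        ≤ ∑ c ∈ C', (4 * δ * 2 ^ c.1) ^ σ := by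
          refine Finset.sum_image_le_of_nonneg ?_
          intro p hp
          obtain ⟨c, _, rfl⟩ := Finset.mem_image.mp hp
          show 0 ≤ (4 * δ * 2 ^ c.1) ^ σ
          positivity
      _ ≤ ∑ c ∈ C, (4 * δ * 2 ^ c.1) ^ σ :=
          Finset.sum_le_sum_of_subset_of_nonneg (Finset.filter_subset _ _)
            (fun c _ _ => by positivity)
      _ = (4 * δ) ^ σ * ∑ c ∈ C, ((2:ℝ) ^ c.1) ^ σ := by
          rw [Finset.mul_sum]
          apply Finset.sum_congr rfl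
          intro c _
          rw [Real.mul_rpow (by positivity) (by positivity)]
      _ ≤ (4 * δ) ^ σ * T := mul_le_mul_of_nonneg_left hCsum (by positivity)
  have h4δ : 0 < (4 * δ) ^ σ := by positivity
  have hTpos : 0 < T := by
    by_contra hcon
    have : (4 * δ) ^ σ * T ≤ 0 := mul_nonpos_of_nonneg_of_nonpos h4δ.le (not_lt.mp hcon)
    linarith
  have hout : ∀ g : Vtx → ℝ, ∑ v ∈ box X Y h, ν v / T * g v = ∑ v ∈ F, ν v / T * g v := by
    intro g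
    symm
    apply Finset.sum_subset hFb
    intro v _ hv
    rw [hνF v hv]
    ring
  refine ⟨fun v => ν v / T, fun v => div_nonneg (hν0 v) hTpos.le, ?_, ?_, ?_⟩
  · have e := hout (fun _ => 1)
    simp only [mul_one] at e
    rw [e, ← Finset.sum_div, div_self hTpos.ne']
  · have e1 : IV b (box X Y h) (fun v => ν v / T) =
        ∑ v ∈ F, ν v / T * ∑ x ∈ F, ν x / T * ((max (nd v x) 1 : ℤ) : ℝ) ^ (-b) := by
      rw [← hout]
      unfold IV
      apply Finset.sum_congr rfl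
      intro v _
      rw [← hout, Finset.mul_sum]
      apply Finset.sum_congr rfl
      intro x _
      ring
    rw [e1]
    have e2 : ∀ v ∈ F, ν v / T * ∑ x ∈ F, ν x / T * ((max (nd v x) 1 : ℤ) : ℝ) ^ (-b) ≤
        ν v / T * (C0 * ((2:ℝ) ^ n) ^ (σ - b) / T) := by
      intro v hv
      apply mul_le_mul_of_nonneg_left _ (div_nonneg (hν0 v) hTpos.le)
      have e3 : ∑ x ∈ F, ν x / T * ((max (nd v x) 1 : ℤ) : ℝ) ^ (-b) =
          (∑ x ∈ F, ν x * ((max (nd v x) 1 : ℤ) : ℝ) ^ (-b)) / T := by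
        rw [Finset.sum_div]
        apply Finset.sum_congr rfl
        intro x _
        ring
      rw [e3]
      apply div_le_div_of_nonneg_right _ hTpos.le
      exact frost_pot hb hbσ hν0 hcap (fun x hx => (box_nd (hFb hv) (hFb hx)).trans hn1)
    refine (Finset.sum_le_sum e2).trans ?_
    rw [← Finset.sum_mul, ← Finset.sum_div, div_self hTpos.ne', one_mul, div_le_iff₀ hTpos]
    have i1 : ((2:ℝ) ^ n) ^ (σ - b) ≤ (4 * (h : ℝ)) ^ (σ - b) :=
      Real.rpow_le_rpow (by positivity) hn2 hsb.le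
    have i2 : (4 * (h : ℝ)) ^ (σ - b) = 4 ^ (σ - b) * ((h : ℝ) ^ σ * (h : ℝ) ^ (-b)) := by
      rw [Real.mul_rpow (by norm_num) hh0.le, sub_eq_add_neg σ b, Real.rpow_add hh0]
    have i3 : (δ * h) ^ σ ≤ η ^ σ := Real.rpow_le_rpow (by positivity) hδh hσ.le
    have i4 : (δ * (h : ℝ)) ^ σ = δ ^ σ * (h : ℝ) ^ σ := Real.mul_rpow hδ.le hh0.le
    have i5 : (4 * δ) ^ σ = 4 ^ σ * δ ^ σ := Real.mul_rpow (by norm_num) hδ.le
    have hhb : 0 < (h : ℝ) ^ (-b) := Real.rpow_pos_of_pos hh0 _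
    have hhσ : 0 < (h : ℝ) ^ σ := Real.rpow_pos_of_pos hh0 _
    calc C0 * ((2:ℝ) ^ n) ^ (σ - b) ≤ C0 * (4 * (h : ℝ)) ^ (σ - b) :=
          mul_le_mul_of_nonneg_left i1 hC0p.le
      _ = C0 * 4 ^ (σ - b) * (h : ℝ) ^ (-b) * (h : ℝ) ^ σ / κ * κ := by
          rw [i2]
          field_simp
      _ ≤ C0 * 4 ^ (σ - b) * (h : ℝ) ^ (-b) * (h : ℝ) ^ σ / κ * ((4 * δ) ^ σ * T) :=
          mul_le_mul_of_nonneg_left hTlow (by positivity)
      _ = C0 * 4 ^ (σ - b) * 4 ^ σ / κ * (h : ℝ) ^ (-b) * T * (δ * h) ^ σ := by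
          rw [i5, i4]
          ring
      _ ≤ C0 * 4 ^ (σ - b) * 4 ^ σ / κ * (h : ℝ) ^ (-b) * T * η ^ σ :=
          mul_le_mul_of_nonneg_left i3 (by positivity)
      _ = C0 * 4 ^ (σ - b) * 4 ^ σ * η ^ σ / κ * (h : ℝ) ^ (-b) * T := by ring
  · intro v hv hne
    have hvF : v ∈ F := by
      by_contra hcon
      apply hne
      show ν v / T = 0
      rw [hνF v hcon, zero_div]
    exact (Finset.mem_filter.mp hvF).2

end Pool.Agent.U151.FS
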